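import Pool.Agent.Helper30.T5g.SizeDefs

/-!
# T5g (MP_12a1af): sizes of the moduli of the triples
-/

set_option autoImplicit false

namespace Pool.Agent.Helper30.T5g

open Finset Pool.Agent.Helper5.ET Pool.Agent.Helper27.T4 Pool.Agent.Helper37.T5g
open Pool.Agent.Helper27.T5b Pool.Agent.Helper37.T5 Pool.Agent.Helper30.T5
open Pool.Agent.Helper27.T5 (sp gw)

/-! ## primes -/

theorem pz_prime (k t : ℕ) (f : Fin 3) : (pz k t f).Prime := sp_prime _

theorem pz_pos (k t : ℕ) (f : Fin 3) : 0 < pz k t f := (pz_prime k t f).pos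

theorem pz_inj (k t : ℕ) : Function.Injective (pz k t) := by
  intro f g h
  have h1 := sp_injective h
  exact Fin.ext (by omega)

theorem pr_lt_pz (g : Fin 3) (k t : ℕ) (f : Fin 3) : pr g < pz k t f := pr_lt_sp g _

theorem buf_lt_pz (k t : ℕ) (f : Fin 3) : 1000039 < pz k t f :=
  lt_of_le_of_lt (by omega) (lt_sp (3 * (t % (k + 3)) + f))

theorem buf_prime : Nat.Prime 1000039 := by norm_num

/-- upper bound of all primes -/
noncomputable def BP (k : ℕ) : ℕ := sp (3 * (k + 3))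

theorem pz_le (k t : ℕ) (f : Fin 3) : pz k t f ≤ BP k := by
  have h1 := Nat.mod_lt t (show 0 < k + 3 by omega)
  have h2 := f.2
  exact sp_strictMono.monotone (by omega)

theorem million_lt_pz (k t : ℕ) (f : Fin 3) : 10 ^ 6 < pz k t f := million_lt_sp _

theorem million_lt_BP (k : ℕ) : 10 ^ 6 < BP k := million_lt_sp _

theorem BP_pos (k : ℕ) : 0 < BP k := sp_pos _

theorem pz_ne {k t t' : ℕ} {f f' : Fin 3} (h : t % (k + 3) ≠ t' % (k + 3) ∨ f ≠ f') :
    pz k t f ≠ pz k t' f' := by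
  intro e
  have h1 := sp_injective e
  have h2 := f.2
  have h3 := f'.2
  have e1 : t % (k + 3) = t' % (k + 3) := by omega
  have e2 : f = f' := Fin.ext (by omega)
  rcases h with h | h
  · exact h e1
  · exact h e2

/-- two different triples at distance less than `k + 3` have different primes -/
theorem mod_ne {k t t' : ℕ} (h1 : t < t') (h2 : t' < t + (k + 3)) :
    t % (k + 3) ≠ t' % (k + 3) := by
  intro h
  have h3 := (Nat.modEq_iff_dvd' h1.le).1 h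
  have h4 := Nat.le_of_dvd (by omega) h3
  omega

theorem coprime_pz {k t t' : ℕ} {f f' : Fin 3} (h : t % (k + 3) ≠ t' % (k + 3) ∨ f ≠ f') :
    Nat.Coprime (pz k t f) (pz k t' f') :=
  (Nat.coprime_primes (pz_prime _ _ _) (pz_prime _ _ _)).2 (pz_ne h)

theorem coprime_pr_pz (g : Fin 3) (k t : ℕ) (f : Fin 3) : Nat.Coprime (pr g) (pz k t f) :=
  coprime_pr_sp g _

theorem coprime_buf_pz (k t : ℕ) (f : Fin 3) : Nat.Coprime 1000039 (pz k t f) :=
  (Nat.coprime_primes buf_prime (pz_prime _ _ _)).2 (buf_lt_pz k t f).ne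

theorem pr_lt_buf (g : Fin 3) : pr g < 1000039 :=
  lt_of_le_of_lt (Pool.Agent.Helper50.ET.pr_le g) (by norm_num)

theorem coprime_pr_buf (g : Fin 3) : Nat.Coprime (pr g) 1000039 :=
  (Nat.coprime_primes (pr_prime g) buf_prime).2 (pr_lt_buf g).ne

/-! ## moduli of the families -/

theorem QF_pos (m : Sq) (k t : ℕ) (f : Fin 3) : 0 < QF m k t f := pow_pos (pz_pos _ _ _) _

theorem QT_pos (m : Sq) (k t : ℕ) : 0 < QT m k t := Finset.prod_pos (fun f _ => QF_pos m k t f)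

theorem coprime_QF {m : Sq} {k t t' : ℕ} {f f' : Fin 3} (h : t % (k + 3) ≠ t' % (k + 3) ∨ f ≠ f') :
    Nat.Coprime (QF m k t f) (QF m k t' f') := Nat.Coprime.pow _ _ (coprime_pz h)

theorem coprime_QT {m : Sq} {k t t' : ℕ} (h : t % (k + 3) ≠ t' % (k + 3)) :
    Nat.Coprime (QT m k t) (QT m k t') :=
  Nat.Coprime.prod_left (fun _ _ => Nat.Coprime.prod_right (fun _ _ => coprime_QF (Or.inl h)))

theorem coprime_pr_QT (g : Fin 3) (m : Sq) (k t : ℕ) : Nat.Coprime (pr g) (QT m k t) :=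
  Nat.Coprime.prod_right (fun f _ => Nat.Coprime.pow_right _ (coprime_pr_pz g k t f))

theorem coprime_buf_QT (m : Sq) (k t : ℕ) : Nat.Coprime 1000039 (QT m k t) :=
  Nat.Coprime.prod_right (fun f _ => Nat.Coprime.pow_right _ (coprime_buf_pz k t f))

/-- exact number of digits: 3/8, 3/8, 2/8 -/
theorem eight_mul_dz {m : Sq} (hm : m.Ok) (t : ℕ) (f : Fin 3) : 8 * dz m t f = gw f * Sg m t := by
  unfold dz
  apply Nat.mul_div_cancel'
  refine Dvd.dvd.mul_left ?_ _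
  exact dvd_trans (show 8 ∣ 2 ^ 250 from Dvd.intro (2 ^ 247) (by norm_num)) (dvd_Sg hm t)

theorem sum_dz {m : Sq} (hm : m.Ok) (t : ℕ) : ∑ f : Fin 3, dz m t f = Sg m t := by
  have h0 := eight_mul_dz hm t 0
  have h1 := eight_mul_dz hm t 1
  have h2 := eight_mul_dz hm t 2
  have e0 : gw 0 = 3 := rfl
  have e1 : gw 1 = 3 := rfl
  have e2 : gw 2 = 2 := rfl
  rw [e0] at h0
  rw [e1] at h1
  rw [e2] at h2
  rw [Fin.sum_univ_three]
  omega

theorem QF_le (m : Sq) (k t : ℕ) (f : Fin 3) : QF m k t f ≤ (10 ^ 6) ^ dz m t f :=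
  Nat.pow_log_le_self _ (by positivity)

theorem lt_QF_mul (m : Sq) (k t : ℕ) (f : Fin 3) :
    (10 ^ 6) ^ dz m t f < QF m k t f * pz k t f := by
  unfold QF
  rw [← pow_succ]
  exact Nat.lt_pow_succ_log_self (pz_prime k t f).one_lt _

theorem QT_le {m : Sq} (hm : m.Ok) (k t : ℕ) : QT m k t ≤ (10 ^ 6) ^ Sg m t := by
  rw [← sum_dz hm, ← Finset.prod_pow_eq_pow_sum]
  exact Finset.prod_le_prod' (fun f _ => QF_le m k t f)

theorem le_QT_mul {m : Sq} (hm : m.Ok) (k t : ℕ) :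
    (10 ^ 6) ^ Sg m t ≤ QT m k t * BP k ^ 3 := by
  rw [← sum_dz hm, ← Finset.prod_pow_eq_pow_sum]
  have h : ∏ f : Fin 3, (QF m k t f * BP k) = QT m k t * BP k ^ 3 := by
    rw [Finset.prod_mul_distrib, Finset.prod_const, Finset.card_univ, Fintype.card_fin]
    rfl
  rw [← h]
  refine Finset.prod_le_prod' (fun f _ => ?_)
  exact (lt_QF_mul m k t f).le.trans (Nat.mul_le_mul_left _ (pz_le k t f))

/-! ## the products `R_t` -/

theorem RT_zero (m : Sq) (k : ℕ) : RT m k 0 = (10 ^ 6) ^ SS m 0 := by simp [RT]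

theorem RT_succ (m : Sq) (k t : ℕ) : RT m k (t + 1) = RT m k t * QT m k (t + 1) := by
  unfold RT
  rw [Finset.prod_Icc_succ_top (by omega), mul_assoc]

theorem RT_pos (m : Sq) (k t : ℕ) : 0 < RT m k t :=
  Nat.mul_pos (by positivity) (Finset.prod_pos (fun i _ => QT_pos m k i))

theorem RT_dvd_succ (m : Sq) (k t : ℕ) : RT m k t ∣ RT m k (t + 1) := by
  rw [RT_succ]
  exact Dvd.intro _ rfl

theorem RT_dvd (m : Sq) (k : ℕ) {t t' : ℕ} (h : t ≤ t') : RT m k t ∣ RT m k t' := by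
  induction t', h using Nat.le_induction with
  | base => exact dvd_rfl
  | succ t' _ ih => exact ih.trans (RT_dvd_succ m k t')

theorem RT_eq_mul (m : Sq) (k : ℕ) {t t' : ℕ} (h : t ≤ t') :
    RT m k t' = RT m k t * ∏ i ∈ Icc (t + 1) t', QT m k i := by
  induction t', h using Nat.le_induction with
  | base => simp
  | succ t' h1 ih =>
    rw [RT_succ, ih, Finset.prod_Icc_succ_top (by omega), mul_assoc]

theorem RT_le {m : Sq} (hm : m.Ok) (k t : ℕ) : RT m k t ≤ (10 ^ 6) ^ SS m t := by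
  induction t with
  | zero => rw [RT_zero]
  | succ t ih =>
    rw [RT_succ]
    have h1 := SS_add_Sg m (t + 1)
    rw [Nat.add_sub_cancel] at h1
    rw [← h1, pow_add]
    exact Nat.mul_le_mul ih (QT_le hm k (t + 1))

theorem le_RT_mul {m : Sq} (hm : m.Ok) (k t : ℕ) :
    (10 ^ 6) ^ SS m t ≤ RT m k t * BP k ^ (3 * t) := by
  induction t with
  | zero => rw [RT_zero, Nat.mul_zero, pow_zero, mul_one]
  | succ t ih =>
    rw [RT_succ]
    have h1 := SS_add_Sg m (t + 1)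
    rw [Nat.add_sub_cancel] at h1
    rw [← h1, pow_add]
    calc (10 ^ 6) ^ SS m t * (10 ^ 6) ^ Sg m (t + 1)
        ≤ (RT m k t * BP k ^ (3 * t)) * (QT m k (t + 1) * BP k ^ 3) :=
          Nat.mul_le_mul ih (le_QT_mul hm k (t + 1))
      _ = RT m k t * QT m k (t + 1) * BP k ^ (3 * (t + 1)) := by ring

/-- quotients of the products: upper bound -/
theorem RT_div_le {m : Sq} (hm : m.Ok) (k : ℕ) {t t' : ℕ} (h : t ≤ t') :
    RT m k t' ≤ RT m k t * (10 ^ 6) ^ (SS m t' - SS m t) := by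
  induction t', h using Nat.le_induction with
  | base => simp
  | succ t' h1 ih =>
    rw [RT_succ]
    have h2 := SS_add_Sg m (t' + 1)
    rw [Nat.add_sub_cancel] at h2
    have h3 := SS_mono m h1
    calc RT m k t' * QT m k (t' + 1)
        ≤ (RT m k t * (10 ^ 6) ^ (SS m t' - SS m t)) * (10 ^ 6) ^ Sg m (t' + 1) :=
          Nat.mul_le_mul ih (QT_le hm k (t' + 1))
      _ = RT m k t * (10 ^ 6) ^ (SS m (t' + 1) - SS m t) := by
          rw [mul_assoc, ← pow_add]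
          congr 2
          omega

/-- quotients of the products: lower bound -/
theorem le_RT_div_mul {m : Sq} (hm : m.Ok) (k : ℕ) {t t' : ℕ} (h : t ≤ t') :
    RT m k t * (10 ^ 6) ^ (SS m t' - SS m t) ≤ RT m k t' * BP k ^ (3 * (t' - t)) := by
  induction t', h using Nat.le_induction with
  | base => simp
  | succ t' h1 ih =>
    rw [RT_succ]
    have h2 := SS_add_Sg m (t' + 1)
    rw [Nat.add_sub_cancel] at h2
    have h3 := SS_mono m h1
    have e1 : SS m (t' + 1) - SS m t = (SS m t' - SS m t) + Sg m (t' + 1) := by omega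
    have e2 : 3 * (t' + 1 - t) = 3 * (t' - t) + 3 := by omega
    rw [e1, e2, pow_add, pow_add]
    calc RT m k t * ((10 ^ 6) ^ (SS m t' - SS m t) * (10 ^ 6) ^ Sg m (t' + 1))
        = (RT m k t * (10 ^ 6) ^ (SS m t' - SS m t)) * (10 ^ 6) ^ Sg m (t' + 1) := by ring
      _ ≤ (RT m k t' * BP k ^ (3 * (t' - t))) * (QT m k (t' + 1) * BP k ^ 3) :=
          Nat.mul_le_mul ih (le_QT_mul hm k (t' + 1))
      _ = RT m k t' * QT m k (t' + 1) * (BP k ^ (3 * (t' - t)) * BP k ^ 3) := by ring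

/-! ## late triples -/

/-- `M * (t + 1) ≤ 2 ^ aa m t` for late `t` -/
theorem exists_mul_le_SS {m : Sq} (hm : m.Ok) (M : ℕ) : ∃ t0, ∀ t ≥ t0, M * (t + 1) ≤ SS m t := by
  refine ⟨M, fun t ht => ?_⟩
  have h1 := aa_ge hm t
  have h2 : 2 ^ (400 * t) ≤ SS m t := Nat.pow_le_pow_right (by norm_num) (by omega)
  have h3 : t < 2 ^ t := Nat.lt_two_pow_self
  calc M * (t + 1) ≤ 2 ^ t * 2 ^ t := Nat.mul_le_mul (by omega) (by omega)
    _ = 2 ^ (t + t) := (pow_add _ _ _).symm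
    _ ≤ 2 ^ (400 * t) := by
        rcases Nat.eq_zero_or_pos t with h | h
        · subst h; simp
        · exact Nat.pow_le_pow_right (by norm_num) (by omega)
    _ ≤ SS m t := h2

theorem SS_le_two_Sg {m : Sq} (hm : m.Ok) (t : ℕ) : SS m (t + 1) ≤ 2 * Sg m (t + 1) := by
  have h1 := SS_succ_ge hm t
  have h2 := SS_add_Sg m (t + 1)
  rw [Nat.add_sub_cancel] at h2
  omega

/-- `BP ^ 20000 ≤ (10 ^ 6) ^ dz` for late triples -/
theorem exists_BP_le {m : Sq} (hm : m.Ok) (k : ℕ) : ∃ t0, ∀ t ≥ t0, ∀ f : Fin 3,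
    BP k ^ 20000 ≤ (10 ^ 6) ^ dz m t f := by
  obtain ⟨t0, h⟩ := exists_mul_le_SS hm (16 * (20000 * BP k))
  refine ⟨t0 + 1, fun t ht f => ?_⟩
  obtain ⟨u, rfl⟩ : ∃ u, t = u + 1 := ⟨t - 1, by omega⟩
  have h1 := h (u + 1) (by omega)
  have h2 := SS_le_two_Sg hm u
  have h3 := eight_mul_dz hm (u + 1) f
  have h4 : 1 ≤ gw f := by fin_cases f <;> simp [gw]
  have h5 : Sg m (u + 1) ≤ gw f * Sg m (u + 1) := Nat.le_mul_of_pos_left _ h4
  have h6 : 16 * (20000 * BP k) ≤ 16 * (20000 * BP k) * (u + 1 + 1) :=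
    Nat.le_mul_of_pos_right _ (by omega)
  have h7 : 20000 * BP k ≤ dz m (u + 1) f := by
    generalize 20000 * BP k = X at *
    omega
  have h8 : BP k ≤ (10 ^ 6) ^ BP k := (Nat.lt_pow_self (by norm_num : 1 < 10 ^ 6)).le
  calc BP k ^ 20000 ≤ ((10 ^ 6) ^ BP k) ^ 20000 := Nat.pow_le_pow_left h8 _
    _ = (10 ^ 6) ^ (20000 * BP k) := by rw [← pow_mul]; congr 1; ring
    _ ≤ _ := Nat.pow_le_pow_right (by norm_num) h7

/-- late triples: `(10 ^ 6) ^ n ≤ QF` as soon as `10001 n ≤ 10000 dz` -/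
theorem exists_pow_le_QF {m : Sq} (hm : m.Ok) (k : ℕ) : ∃ t0, ∀ t ≥ t0, ∀ f : Fin 3, ∀ n : ℕ,
    10001 * n ≤ 10000 * dz m t f → (10 ^ 6) ^ n ≤ QF m k t f := by
  obtain ⟨t0, h⟩ := exists_BP_le hm k
  refine ⟨t0, fun t ht f n hn => ?_⟩
  have h1 : pz k t f ^ 20000 ≤ (10 ^ 6) ^ dz m t f :=
    (Nat.pow_le_pow_left (pz_le k t f) _).trans (h t ht f)
  have h2 := lt_QF_mul m k t f
  have h3 : ((10 ^ 6) ^ n * pz k t f) ^ 20000 ≤ ((10 ^ 6) ^ dz m t f) ^ 20000 := by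
    rw [mul_pow]
    calc ((10 ^ 6) ^ n) ^ 20000 * pz k t f ^ 20000
        ≤ ((10 ^ 6) ^ n) ^ 20000 * (10 ^ 6) ^ dz m t f := Nat.mul_le_mul_left _ h1
      _ = (10 ^ 6) ^ (n * 20000 + dz m t f) := by rw [← pow_mul, ← pow_add]
      _ ≤ (10 ^ 6) ^ (dz m t f * 20000) := Nat.pow_le_pow_right (by norm_num) (by omega)
      _ = ((10 ^ 6) ^ dz m t f) ^ 20000 := pow_mul _ _ _
  have h4 : (10 ^ 6) ^ n * pz k t f ≤ (10 ^ 6) ^ dz m t f :=
    (Nat.pow_le_pow_iff_left (by norm_num : 20000 ≠ 0)).1 h3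
  exact (Nat.lt_of_mul_lt_mul_right (h4.trans_lt h2)).le

/-- late triples: `(10 ^ 6) ^ n ≤ R_t` as soon as `10001 n ≤ 10000 S_t` -/
theorem exists_pow_le_RT {m : Sq} (hm : m.Ok) (k : ℕ) : ∃ t0, ∀ t ≥ t0, ∀ n : ℕ,
    10001 * n ≤ 10000 * SS m t → (10 ^ 6) ^ n ≤ RT m k t := by
  obtain ⟨t0, h⟩ := exists_mul_le_SS hm (20000 * (3 * BP k))
  refine ⟨t0, fun t ht n hn => ?_⟩
  have h1 := h t ht
  have h2 := le_RT_mul hm k t
  have h3 : BP k ^ (3 * t) ≤ (10 ^ 6) ^ (3 * BP k * (t + 1)) := by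
    have h8 : BP k ≤ (10 ^ 6) ^ BP k := (Nat.lt_pow_self (by norm_num : 1 < 10 ^ 6)).le
    calc BP k ^ (3 * t) ≤ ((10 ^ 6) ^ BP k) ^ (3 * t) := Nat.pow_le_pow_left h8 _
      _ = (10 ^ 6) ^ (BP k * (3 * t)) := by rw [← pow_mul]
      _ ≤ _ := Nat.pow_le_pow_right (by norm_num) (by nlinarith)
  have h4 : n + 3 * BP k * (t + 1) ≤ SS m t := by
    have h5 : 20000 * (3 * BP k) * (t + 1) = 20000 * (3 * BP k * (t + 1)) := by ring
    rw [h5] at h1
    generalize 3 * BP k * (t + 1) = X at *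
    generalize SS m t = Y at *
    omega
  have h5 : (10 ^ 6) ^ n * (10 ^ 6) ^ (3 * BP k * (t + 1)) ≤
      RT m k t * (10 ^ 6) ^ (3 * BP k * (t + 1)) := by
    rw [← pow_add]
    calc (10 ^ 6) ^ (n + 3 * BP k * (t + 1)) ≤ (10 ^ 6) ^ SS m t :=
          Nat.pow_le_pow_right (by norm_num) h4
      _ ≤ RT m k t * BP k ^ (3 * t) := h2
      _ ≤ _ := Nat.mul_le_mul_left _ h3
  exact Nat.le_of_mul_le_mul_right h5 (by positivity)

end Pool.Agent.Helper30.T5g
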