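import Pool.Agent.Helper30.T5g.NLb
import Pool.Agent.Helper99.T5g.OkF

/-!
# T5g (MP_12a1af): the primes are small against the steps for `OkF`
-/

set_option autoImplicit false

namespace Pool.Agent.Helper30.T5g

open Pool.Agent.Helper37.T5g Pool.Agent.Helper99.T5g

theorem bigQ_of_okF {m : Sq} (hm : OkF m) : BigQ m m.k := by
  refine ⟨0, fun t _ => ?_⟩
  rw [hm.qc t, hm.gc (t + 1)]
  calc 10 ^ 6 * BP m.k ≤ 2 ^ 40 * BP m.k := Nat.mul_le_mul_right _ (by norm_num)
    _ ≤ 2 ^ m.gr 0 := hm.big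
    _ ≤ _ := Nat.pow_le_pow_right (by norm_num) (by omega)

end Pool.Agent.Helper30.T5g
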