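import Pool.Agent.Helper30.T5g.Level

/-!
# T5g (MP_12a1af): index against main position
-/

set_option autoImplicit false

namespace Pool.Agent.Helper30.T5g

open Finset Pool.Agent.Helper5.ET Pool.Agent.Helper27.T4 Pool.Agent.Helper37.T5g
open Pool.Agent.Helper27.T5b Pool.Agent.Helper37.T5 Pool.Agent.Helper30.T5
open Pool.Agent.Helper27.T5 (sp gw)

theorem Bq_ge {m : Sq} (hm : m.Ok) (t : ℕ) : 2 ^ 400 ≤ Bq m (t + 1) := by
  rw [Bq_eq]
  apply Nat.pow_le_pow_right (by norm_num)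
  have := hm.q t
  omega

/-- `RB` is at most the distance of the events -/
theorem RB_le {m : Sq} (hm : m.Ok) (k j : ℕ) : RB m (lv m k j) ≤ ZZ m k j := by
  have h1 := Zt_lv_le m k j
  have h2 : RB m (lv m k j) = 9 * PZ m (lv m k j - 1) := rfl
  have h3 := PZ_mul hm (lv m k j - 1)
  have h4 := SS_mono m (Nat.sub_le (lv m k j) 1)
  unfold Zt at h1
  omega

/-- insertions before main digits of one era, up to `y` -/
theorem sum_ins_era_le {m : Sq} {k : ℕ} (hm : m.Ok) {y : ℕ} (hy : bb 0 ≤ y) (h : kt m k ≤ era y) :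
    ∑ z ∈ Icc (bb (era y)) y, ins m k z ≤ bb (era y) / 2 ^ 150 := by
  have hs := era_spec y hy
  have h1 : Icc (bb (era y)) y = insert (bb (era y)) (Icc (bb (era y) + 1) y) := by
    ext z
    simp only [mem_insert, mem_Icc]
    omega
  have h2 := sum_ins_le (m := m) (k := k) (y' := bb (era y) + 1) (y := y) (Nat.lt_succ_self _)
  rw [h1, sum_insert (by simp), ins_bb hm]
  have h3 := RB_le hm k (era y)
  have h4 := ZZ_small (k := k) hm h
  have h5 := Bq_ge hm (lv m k (era y))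
  have h6 : (y - (bb (era y) + 1)) / Bq m (lv m k (era y) + 1) ≤ bb (era y) / 2 ^ 400 := by
    have h7 := bb_succ_le (era y)
    exact (Nat.div_le_div_right (by omega)).trans (Nat.div_le_div_left h5 (by positivity))
  rw [Nat.le_div_iff_mul_le (by positivity)]
  have h8 : 2 ^ 400 * (bb (era y) / 2 ^ 400) ≤ bb (era y) := Nat.mul_div_le _ _
  have h9 : 2 ^ 200 ≤ bb (era y) := by
    have a1 := kt_spec m k
    have a2 := SS_ge hm (k + 1)
    have a3 := bb_strictMono.monotone h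
    have a4 : 2 ^ 200 ≤ 2 ^ 250 := Nat.pow_le_pow_right (by norm_num) (by norm_num)
    omega
  generalize bb (era y) = b at *
  generalize RB m (lv m k (era y)) = R at *
  generalize ZZ m k (era y) = Z at *
  generalize (y - (b + 1)) / Bq m (lv m k (era y) + 1) = q at *
  generalize b / 2 ^ 400 = q' at *
  have e1 : 2 ^ 200 * R ≤ b := (Nat.mul_le_mul_left _ h3).trans h4
  have e2 : 2 ^ 200 * q' ≤ b :=
    (Nat.mul_le_mul_right _ (Nat.pow_le_pow_right (by norm_num) (by norm_num))).trans h8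
  have e3 : (R + ∑ z ∈ Icc (b + 1) y, ins m k z) ≤ R + (q' + 1) := by omega
  have e4 : 2 ^ 200 * (R + (q' + 1)) ≤ 3 * b := by
    calc 2 ^ 200 * (R + (q' + 1)) = 2 ^ 200 * R + 2 ^ 200 * q' + 2 ^ 200 := by ring
      _ ≤ 3 * b := by omega
  have e5 : 2 ^ 200 * (R + (q' + 1)) = (R + (q' + 1)) * 2 ^ 150 * 2 ^ 50 := by ring
  rw [e5] at e4
  have e6 : (R + (q' + 1)) * 2 ^ 150 ≤ b := by
    refine Nat.le_of_mul_le_mul_right (e4.trans ?_) (show 0 < 2 ^ 50 by positivity)
    rw [mul_comm b]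
    exact Nat.mul_le_mul_right _ (by norm_num)
  exact (Nat.mul_le_mul_right _ e3).trans e6

/-- number of extra digits below the border `bb j` -/
theorem sum_ins_border_le {m : Sq} {k : ℕ} (hm : m.Ok) : ∃ C, ∀ j, kt m k ≤ j →
    2 ^ 100 * ∑ z ∈ range (bb j), ins m k z ≤ C + bb j := by
  refine ⟨2 ^ 100 * ∑ z ∈ range (bb (kt m k)), ins m k z, fun j hj => ?_⟩
  induction j, hj using Nat.le_induction with
  | base => exact Nat.le_add_right _ _
  | succ j h1 ih =>
    have h2 := bb_lt_succ j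
    have h3 : bb 0 ≤ bb (j + 1) - 1 := by
      have := bb_strictMono.monotone (Nat.zero_le j)
      omega
    have he : era (bb (j + 1) - 1) = j := era_eq _ _ (by omega) (by omega)
    have h4 := sum_ins_era_le (k := k) hm h3 (by rw [he]; exact h1)
    rw [he] at h4
    have h5 : range (bb (j + 1)) = range (bb j) ∪ Icc (bb j) (bb (j + 1) - 1) := by
      ext z
      simp only [mem_union, mem_range, mem_Icc]
      omega
    have h6 : Disjoint (range (bb j)) (Icc (bb j) (bb (j + 1) - 1)) := by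
      rw [disjoint_left]
      intro z h1 h2
      rw [mem_range] at h1
      rw [mem_Icc] at h2
      omega
    rw [h5, sum_union h6, mul_add]
    have h7 : 2 ^ 100 * (bb j / 2 ^ 150) ≤ bb (j + 1) - bb j := by
      have a1 : 2 ^ 150 * (bb j / 2 ^ 150) ≤ bb j := Nat.mul_div_le _ _
      have a2 := len_bounds j
      have a3 := bb_ge_pow j
      unfold len at a2
      have a4 : 2 ^ 150 * (bb j / 2 ^ 150) = 2 ^ 50 * (2 ^ 100 * (bb j / 2 ^ 150)) := by
        rw [← mul_assoc, ← pow_add]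
      rw [a4] at a1
      generalize 2 ^ 100 * (bb j / 2 ^ 150) = X at *
      omega
    have h8 := Nat.mul_le_mul_left (2 ^ 100) h4
    omega

/-- number of extra digits before the main digit `y` (included) -/
theorem GG_le {m : Sq} {k : ℕ} (hm : m.Ok) : ∃ C, ∀ y, bb 0 ≤ y → kt m k ≤ era y →
    2 ^ 99 * GG (ins m k) y ≤ C + y := by
  obtain ⟨C, hC⟩ := sum_ins_border_le (k := k) hm
  refine ⟨C, fun y hy h => ?_⟩
  have hs := era_spec y hy
  have h1 := hC (era y) h
  have h2 := sum_ins_era_le (k := k) hm hy h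
  have h5 : range (y + 1) = range (bb (era y)) ∪ Icc (bb (era y)) y := by
    ext z
    simp only [mem_union, mem_range, mem_Icc]
    omega
  have h6 : Disjoint (range (bb (era y))) (Icc (bb (era y)) y) := by
    rw [disjoint_left]
    intro z h1 h2
    rw [mem_range] at h1
    rw [mem_Icc] at h2
    omega
  unfold GG
  rw [h5, sum_union h6]
  have h7 : 2 ^ 100 * (bb (era y) / 2 ^ 150) ≤ bb (era y) := by
    have a1 : 2 ^ 150 * (bb (era y) / 2 ^ 150) ≤ bb (era y) := Nat.mul_div_le _ _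
    exact (Nat.mul_le_mul_right _ (Nat.pow_le_pow_right (by norm_num) (by norm_num))).trans a1
  have h8 := Nat.mul_le_mul_left (2 ^ 100) h2
  have e : 2 ^ 100 * (∑ z ∈ range (bb (era y)), ins m k z + ∑ z ∈ Icc (bb (era y)) y, ins m k z) =
      2 * (2 ^ 99 * (∑ z ∈ range (bb (era y)), ins m k z +
        ∑ z ∈ Icc (bb (era y)) y, ins m k z)) := by ring
  have e2 : 2 ^ 100 * (∑ z ∈ range (bb (era y)), ins m k z +
      ∑ z ∈ Icc (bb (era y)) y, ins m k z) ≤ (C + bb (era y)) + bb (era y) := by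
    rw [mul_add]
    omega
  rw [e] at e2
  omega

/-- **index against main position**: `l - l1 l` is small -/
theorem l_le_l1 {m : Sq} {k : ℕ} (hm : m.Ok) : ∃ C, ∀ l, bb 0 ≤ l1 (ins m k) l →
    kt m k ≤ era (l1 (ins m k) l) →
    2 ^ 99 * (l - l1 (ins m k) l) ≤ C + l1 (ins m k) l := by
  obtain ⟨C, hC⟩ := GG_le (k := k) hm
  refine ⟨C, fun l h1 h2 => ?_⟩
  have h3 := hC _ h1 h2
  have h4 := le_pos_l1 (ins m k) l
  unfold pos at h4
  have h5 : l - l1 (ins m k) l ≤ GG (ins m k) (l1 (ins m k) l) := by omega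
  exact (Nat.mul_le_mul_left _ h5).trans h3

theorem tendsto_l1 (m : Sq) (k : ℕ) (Y : ℕ) : ∃ l0, ∀ l ≥ l0, Y ≤ l1 (ins m k) l := by
  refine ⟨pos (ins m k) Y, fun l hl => ?_⟩
  rw [← l1_pos (ins m k) Y]
  exact l1_mono (ins m k) hl

/-- late indices: everything is late, and `1000 l ≤ 1001 l1 l` -/
theorem exists_late {m : Sq} {k : ℕ} (hm : m.Ok) (Y j : ℕ) : ∃ l0, ∀ l ≥ l0,
    Y ≤ l1 (ins m k) l ∧ bb 0 ≤ l1 (ins m k) l ∧ kt m k ≤ era (l1 (ins m k) l) ∧
      j ≤ era (l1 (ins m k) l) ∧ 1000 * l ≤ 1001 * l1 (ins m k) l := by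
  obtain ⟨C, hC⟩ := l_le_l1 (k := k) hm
  obtain ⟨l0, h0⟩ := tendsto_l1 m k (Y + C + bb (kt m k + j))
  refine ⟨l0, fun l hl => ?_⟩
  have h1 := h0 l hl
  have h2 : bb 0 ≤ bb (kt m k + j) := bb_strictMono.monotone (Nat.zero_le _)
  have h3 : kt m k + j ≤ era (l1 (ins m k) l) := by
    have := era_mono (show bb (kt m k + j) ≤ l1 (ins m k) l by omega)
    rwa [era_bb] at this
  have h4 := hC l (by omega) (by omega)
  have h5 := l1_le (ins m k) l
  have h6 : 2 ^ 99 * (l - l1 (ins m k) l) ≤ 2 * l1 (ins m k) l := by omega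
  have h7 : 2000 * (l - l1 (ins m k) l) ≤ 2 ^ 99 * (l - l1 (ins m k) l) :=
    Nat.mul_le_mul_right _ (by norm_num)
  refine ⟨by omega, by omega, by omega, by omega, by omega⟩

end Pool.Agent.Helper30.T5g
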