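import Pool.Agent.Helper30.T5g.Index
import Pool.Agent.Helper37.T5g.Prod

/-!
# T5g (MP_12a1af): bounds of the modulus `NL` of a state
-/

set_option autoImplicit false

namespace Pool.Agent.Helper30.T5g

open Finset Pool.Agent.Helper5.ET Pool.Agent.Helper27.T4 Pool.Agent.Helper37.T5g
open Pool.Agent.Helper27.T5b Pool.Agent.Helper37.T5 Pool.Agent.Helper30.T5
open Pool.Agent.Helper27.T5 (sp gw)

/-! ## the primes of the digits -/

theorem million_le_pr (f : Fin 3) : 10 ^ 6 ≤ pr f :=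
  (by norm_num : 10 ^ 6 ≤ 1000003).trans (Pool.Agent.Helper50.ET.pr_ge f)

theorem million_le_pe (k : ℕ) (g : Option (ℕ × Fin 3)) : 10 ^ 6 ≤ pe k g := by
  rcases g with _ | ⟨t, f⟩
  · show 10 ^ 6 ≤ 1000039
    norm_num
  · exact (million_lt_sp _).le

theorem buf_lt_BP (k : ℕ) : 1000039 < BP k := lt_of_le_of_lt (by omega) (lt_sp (3 * (k + 3)))

theorem pr_le_BP (k : ℕ) (f : Fin 3) : pr f ≤ BP k := (pr_lt_buf f).le.trans (buf_lt_BP k).le

theorem pe_le_BP (k : ℕ) (g : Option (ℕ × Fin 3)) : pe k g ≤ BP k := by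
  rcases g with _ | ⟨t, f⟩
  · exact (buf_lt_BP k).le
  · exact pz_le k t f

theorem pe_pos (k : ℕ) (g : Option (ℕ × Fin 3)) : 0 < pe k g :=
  lt_of_lt_of_le (by positivity) (million_le_pe k g)

/-- prime of the digit with index `i` -/
noncomputable def pd (m : Sq) (k i : ℕ) : ℕ := Sum.elim pr (pe k) (ow (ins m k) own (ex m k) i)

theorem million_le_pd (m : Sq) (k i : ℕ) : 10 ^ 6 ≤ pd m k i := by
  unfold pd
  cases ow (ins m k) own (ex m k) i with
  | inl f => exact million_le_pr f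
  | inr g => exact million_le_pe k g

theorem pd_le (m : Sq) (k i : ℕ) : pd m k i ≤ BP k := by
  unfold pd
  cases ow (ins m k) own (ex m k) i with
  | inl f => exact pr_le_BP k f
  | inr g => exact pe_le_BP k g

theorem pd_pos (m : Sq) (k i : ℕ) : 0 < pd m k i := lt_of_lt_of_le (by positivity) (million_le_pd m k i)

/-! ## first facts about `NL` -/

theorem NL_eq_mul (m : Sq) (k : ℕ) {l' l : ℕ} (h : l' ≤ l) :
    NL m k l = NL m k l' * ∏ i ∈ Ico l' l, pd m k i := by
  unfold NL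
  rw [NP_mul h, mul_assoc]
  rfl

theorem NL_succ (m : Sq) (k l : ℕ) : NL m k (l + 1) = NL m k l * pd m k l := by
  rw [NL_eq_mul m k (Nat.le_succ l)]
  simp

theorem NL_pos (m : Sq) (k l : ℕ) : 0 < NL m k l :=
  Nat.mul_pos (RT_pos _ _ _) (NP_pos (fun f => (pr_prime f).pos) (pe_pos k) l)

theorem NL_dvd (m : Sq) (k : ℕ) {l' l : ℕ} (h : l' ≤ l) : NL m k l' ∣ NL m k l := by
  rw [NL_eq_mul m k h]
  exact Dvd.intro _ rfl

theorem NL_div (m : Sq) (k : ℕ) {l' l : ℕ} (h : l' ≤ l) :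
    NL m k l / NL m k l' = ∏ i ∈ Ico l' l, pd m k i := by
  rw [NL_eq_mul m k h, Nat.mul_div_cancel_left _ (NL_pos m k l')]

theorem NL_lower (m : Sq) (k : ℕ) {l' l : ℕ} (h : l' ≤ l) :
    NL m k l' * (10 ^ 6) ^ (l - l') ≤ NL m k l := by
  rw [NL_eq_mul m k h, ← Nat.card_Ico, ← prod_const]
  exact Nat.mul_le_mul_left _ (prod_le_prod' (fun i _ => million_le_pd m k i))

theorem NL_upper (m : Sq) (k : ℕ) {l' l : ℕ} (h : l' ≤ l) :
    NL m k l ≤ NL m k l' * BP k ^ (l - l') := by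
  rw [NL_eq_mul m k h, ← Nat.card_Ico, ← prod_const]
  exact Nat.mul_le_mul_left _ (prod_le_prod' (fun i _ => pd_le m k i))

theorem NL_succ_ge (m : Sq) (k l : ℕ) : 10 ^ 6 * NL m k l ≤ NL m k (l + 1) := by
  rw [NL_succ, mul_comm]
  exact Nat.mul_le_mul_left _ (million_le_pd m k l)

theorem NL_succ_le (m : Sq) (k l : ℕ) : NL m k (l + 1) ≤ BP k * NL m k l := by
  rw [NL_succ, mul_comm]
  exact Nat.mul_le_mul_right _ (pd_le m k l)

theorem two_NL_le (m : Sq) (k l : ℕ) : 2 * NL m k l ≤ NL m k (l + 1) :=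
  (Nat.mul_le_mul_right _ (by norm_num)).trans (NL_succ_ge m k l)

theorem NL_mono (m : Sq) (k : ℕ) : Monotone (NL m k) :=
  fun _ _ h => Nat.le_of_dvd (NL_pos _ _ _) (NL_dvd m k h)

theorem NL_strictMono (m : Sq) (k : ℕ) : StrictMono (NL m k) := strictMono_nat_of_lt_succ (fun l => by
  have h1 := two_NL_le m k l
  have h2 := NL_pos m k l
  omega)

theorem NL_zero (m : Sq) (k : ℕ) : NL m k 0 = RT m k k := by
  unfold NL
  rw [NP_zero, mul_one]

theorem pow_le_NL (m : Sq) (k l : ℕ) : (10 ^ 6) ^ l ≤ NL m k l := by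
  have h := NL_lower m k (Nat.zero_le l)
  rw [Nat.sub_zero] at h
  exact (Nat.le_mul_of_pos_left _ (NL_pos m k 0)).trans h

theorem NL_le_pow (m : Sq) (k l : ℕ) : NL m k l ≤ RT m k k * BP k ^ l := by
  have h := NL_upper m k (Nat.zero_le l)
  rwa [Nat.sub_zero, NL_zero] at h

/-! ## the newborn digits are rare -/

/-- is the digit `i` a newborn digit? -/
def isNew (m : Sq) (k i : ℕ) : Prop :=
  ∃ g : ℕ × Fin 3, ow (ins m k) own (ex m k) i = Sum.inr (some g)

theorem new_data {m : Sq} {k : ℕ} (hm : m.Ok) {i : ℕ} (h : isNew m k i) :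
    ∃ t n, k ≤ t ∧ 1 ≤ n ∧ n ≤ nn m k (t + 1) ∧ l1 (ins m k) i = gy m (t + 1) n ∧
      i = beg (ins m k) (l1 (ins m k) i) := by
  obtain ⟨⟨T, f⟩, h⟩ := h
  obtain ⟨hT, n, h1, h2, h3, _⟩ := (ow_eq_some hm).1 h
  obtain ⟨t, ht⟩ := Nat.exists_eq_add_of_lt hT
  have e : T = (k + t) + 1 := ht
  subst e
  have h4 : l1 (ins m k) i = gy m (k + t + 1) n := by
    rw [h3]
    exact l1_beg _ _
  exact ⟨k + t, n, by omega, h1, h2, h4, by rw [h4]; exact h3⟩

/-- gaps between growth positions -/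
theorem gy_gap {m : Sq} {k : ℕ} (hm : m.Ok) {M t n t' n' : ℕ} (hM : M ≤ Bq m (t + 1))
    (hM' : M ≤ SS m (t + 1))
    (h2 : n ≤ nn m k (t + 1)) (h2' : n' ≤ nn m k (t' + 1))
    (h : gy m (t + 1) n < gy m (t' + 1) n') :
    gy m (t + 1) n + M ≤ gy m (t' + 1) n' := by
  rcases Nat.lt_trichotomy t t' with ht | ht | ht
  · -- different eras
    have a1 : gy m (t + 1) n ≤ nE m k (t + 1) :=
      Nat.add_le_add_left (Nat.mul_le_mul_right _ h2) _
    have a2 := nE_le_nD m k (t + 1)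
    have a3 := nD_le hm k t
    have a4 := bb_add_len (kt m (t + 1))
    have a5 : bb (kt m (t + 1) + 1) ≤ bb (kt m (t' + 1)) :=
      bb_strictMono.monotone (kt_strictMono hm (by omega))
    have a6 := bb_le_ut m (t' + 1)
    have a7 : ut m (t' + 1) ≤ gy m (t' + 1) n' := Nat.le_add_right _ _
    have a8 : M ≤ Zt m (t + 1) := hM'.trans (Nat.le_mul_of_pos_left _ (by positivity))
    omega
  · subst ht
    have h3 : n < n' := (gy_strictMono m (t + 1)).lt_iff_lt.1 h
    obtain ⟨d, rfl⟩ := Nat.exists_eq_add_of_lt h3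
    unfold gy
    have h4 : (n + d + 1) * Bq m (t + 1) = n * Bq m (t + 1) + (d * Bq m (t + 1) + Bq m (t + 1)) := by
      ring
    rw [h4]
    omega
  · exfalso
    have a1 : ut m (t + 1) ≤ gy m (t + 1) n := Nat.le_add_right _ _
    have a2 := bb_le_ut m (t + 1)
    have a5 : bb (kt m (t' + 1)) ≤ bb (kt m (t + 1)) :=
      bb_strictMono.monotone (kt_strictMono hm (by omega)).le
    have b1 : gy m (t' + 1) n' ≤ nE m k (t' + 1) :=
      Nat.add_le_add_left (Nat.mul_le_mul_right _ h2') _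
    have b2 := nE_le_nD m k (t' + 1)
    have b3 := nD_le hm k t'
    have b4 := bb_add_len (kt m (t' + 1))
    have b5 : bb (kt m (t' + 1) + 1) ≤ bb (kt m (t + 1)) :=
      bb_strictMono.monotone (kt_strictMono hm (by omega))
    omega

/-- finite sets with gaps -/
theorem card_gap_le {S : Finset ℕ} {a b M : ℕ} (hM : 0 < M) (hS : ∀ x ∈ S, a ≤ x ∧ x < b)
    (hg : ∀ x ∈ S, ∀ y ∈ S, x < y → x + M ≤ y) : S.card ≤ (b - a) / M + 1 := by
  have h1 : S.card ≤ (range ((b - a) / M + 1)).card := by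
    apply card_le_card_of_injOn (fun z => (z - a) / M)
    · intro z hz
      have := hS z hz
      simp only [coe_range, Set.mem_Iio]
      exact Nat.lt_succ_of_le (Nat.div_le_div_right (by omega))
    · intro x hx y hy hxy
      have hx' := hS x hx
      have hy' := hS y hy
      have key : ∀ x y : ℕ, a ≤ x → x + M ≤ y → (x - a) / M < (y - a) / M := by
        intro x y h1 h2
        have h3 : (x - a) / M + 1 = (x - a + M) / M := (Nat.add_div_right _ hM).symm
        have h4 : (x - a + M) / M ≤ (y - a) / M := Nat.div_le_div_right (by omega)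
        omega
      simp only at hxy
      rcases Nat.lt_trichotomy x y with h | h | h
      · have := key x y hx'.1 (hg x hx y hy h)
        omega
      · exact h
      · have := key y x hy'.1 (hg y hy x hx h)
        omega
  rwa [card_range] at h1

open Classical in
/-- number of newborn digits in an interval -/
noncomputable def nb (m : Sq) (k l' l : ℕ) : ℕ := ((Ico l' l).filter (isNew m k)).card

/-- the distances of the digits bound the distances of the main digits -/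
theorem beg_add_le (ins : ℕ → ℕ) (y d : ℕ) : beg ins y + d ≤ beg ins (y + d) := by
  induction d with
  | zero => simp
  | succ d ih =>
    have h4 := beg_succ ins (y + d)
    have h5 := beg_le_pos ins (y + d)
    have e : y + (d + 1) = y + d + 1 := by ring
    rw [e, h4]
    omega

/-- **the newborn digits are rare** -/
theorem nb_le {m : Sq} {k : ℕ} (hm : m.Ok) {M j0 : ℕ} (hM0 : 0 < M)
    (hM : ∀ t, j0 ≤ kt m (t + 1) → M ≤ Bq m (t + 1) ∧ M ≤ SS m (t + 1)) {l' l : ℕ}
    (hl' : bb j0 ≤ l1 (ins m k) l') : nb m k l' l ≤ (l - l') / M + 1 := by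
  classical
  unfold nb
  apply card_gap_le hM0
  · intro x hx
    rw [mem_filter, mem_Ico] at hx
    exact hx.1
  · intro x hx y hy hxy
    rw [mem_filter, mem_Ico] at hx hy
    obtain ⟨t, n, hk, h1, h2, h3, h4⟩ := new_data hm hx.2
    obtain ⟨t', n', hk', h1', h2', h3', h4'⟩ := new_data hm hy.2
    have h5 : l1 (ins m k) x < l1 (ins m k) y := by
      by_contra hc
      have := (beg_strictMono (ins m k)).monotone (not_lt.1 hc)
      omega
    have h6 : bb j0 ≤ l1 (ins m k) x := hl'.trans (l1_mono (ins m k) hx.1.1)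
    -- the era of `x`
    have h7 : j0 ≤ kt m (t + 1) := by
      have a1 := era_mono h6
      rw [era_bb] at a1
      have a2 : gy m (t + 1) n ≤ nE m k (t + 1) :=
        Nat.add_le_add_left (Nat.mul_le_mul_right _ h2) _
      have a3 := nE_le_nD m k (t + 1)
      have a4 : ut m (t + 1) ≤ gy m (t + 1) n := Nat.le_add_right _ _
      have a5 := bb_le_ut m (t + 1)
      have a6 := era_of_mem (k := k) hm (t := t) (y := l1 (ins m k) x) (by omega) (by omega)
      omega
    obtain ⟨hM1, hM2⟩ := hM t h7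
    rw [h3, h3'] at h5
    have h8 := gy_gap hm hM1 hM2 h2 h2' h5
    rw [← h3, ← h3'] at h8
    obtain ⟨d, hd⟩ := Nat.exists_eq_add_of_le h8
    have h9 := beg_add_le (ins m k) (l1 (ins m k) x) (M + d)
    have h10 : l1 (ins m k) y = l1 (ins m k) x + (M + d) := by omega
    rw [← h10] at h9
    omega

/-- the quotients of the sizes beat the primes (late triples) -/
class BigQ (m : Sq) (k : ℕ) : Prop where
  out : ∃ t0, ∀ t ≥ t0, 10 ^ 6 * BP k ≤ 2 ^ (m.q t + m.gr (t + 1))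

/-- large gaps in late eras -/
theorem exists_gap {m : Sq} {k : ℕ} (hm : m.Ok) [hB : BigQ m k] : ∃ j0, ∀ t,
    j0 ≤ kt m (t + 1) → 10 ^ 6 * BP k ≤ Bq m (t + 1) ∧ 10 ^ 6 * BP k ≤ SS m (t + 1) := by
  obtain ⟨t0, h0⟩ := hB
  refine ⟨kt m (t0 + 10 ^ 6 * BP k + 1), fun t ht => ?_⟩
  have h1 : t0 + 10 ^ 6 * BP k ≤ t := by
    have := (kt_strictMono hm).le_iff_le.1 ht
    omega
  constructor
  · rw [Bq_eq]
    refine (h0 t (by omega)).trans (Nat.pow_le_pow_right (by norm_num) ?_)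
    omega
  · have h3 : 10 ^ 6 * BP k < 2 ^ (10 ^ 6 * BP k) := Nat.lt_two_pow_self
    have h6 := aa_ge hm (t + 1)
    exact h3.le.trans (Nat.pow_le_pow_right (by norm_num) (by omega))

theorem exists_nb_le {m : Sq} {k : ℕ} (hm : m.Ok) [hB : BigQ m k] : ∃ l0, ∀ l' l, l0 ≤ l' →
    nb m k l' l ≤ (l - l') / (10 ^ 6 * BP k) + 1 := by
  obtain ⟨j0, hj⟩ := exists_gap (k := k) hm
  obtain ⟨l0, h0⟩ := tendsto_l1 m k (bb j0)
  have h1 := BP_pos k
  exact ⟨l0, fun l' l hl => nb_le hm (by positivity) hj (h0 l' hl)⟩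

/-! ## the upper bound of `NL` -/

theorem pd_le_buf {m : Sq} {k i : ℕ} (h : ¬ isNew m k i) : pd m k i ≤ 1000039 := by
  unfold pd
  cases hi : ow (ins m k) own (ex m k) i with
  | inl f => exact (pr_lt_buf f).le
  | inr g =>
    rcases g with _ | g
    · exact le_rfl
    · exact absurd ⟨g, hi⟩ h

theorem NL_le_nb (m : Sq) (k : ℕ) {l' l : ℕ} (h : l' ≤ l) :
    NL m k l ≤ NL m k l' * (1000039 ^ (l - l') * BP k ^ nb m k l' l) := by
  classical
  rw [NL_eq_mul m k h]
  apply Nat.mul_le_mul_left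
  have h1 : ∏ i ∈ Ico l' l, pd m k i ≤ ∏ i ∈ Ico l' l,
      (1000039 * if isNew m k i then BP k else 1) := by
    apply prod_le_prod'
    intro i _
    split_ifs with h2
    · exact (pd_le m k i).trans (Nat.le_mul_of_pos_left _ (by norm_num))
    · rw [mul_one]
      exact pd_le_buf h2
  refine h1.trans ?_
  rw [prod_mul_distrib, prod_const, Nat.card_Ico]
  apply Nat.mul_le_mul_left
  rw [← prod_filter, prod_const]
  unfold nb
  exact le_rfl

theorem buf_pow_le (d n : ℕ) (h : 100001 * d ≤ 100000 * n) : 1000039 ^ d ≤ (10 ^ 6) ^ n := by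
  have h0 : Real.log 1000039 ≤ Real.log (10 ^ 6) + 1 / 100000 * Real.log (10 ^ 6) := by
    have h1 : Real.log 1000039 = Real.log (10 ^ 6) + Real.log (1000039 / 10 ^ 6) := by
      rw [← Real.log_mul (by norm_num) (by norm_num)]
      norm_num
    have h2 : Real.log (1000039 / 10 ^ 6) ≤ 1000039 / 10 ^ 6 - 1 :=
      Real.log_le_sub_one_of_pos (by norm_num)
    have h3 := log_million_gt
    have h6 : (1 / 100000 : ℝ) * 13 ≤ 1 / 100000 * Real.log (10 ^ 6) :=
      mul_le_mul_of_nonneg_left h3.le (by norm_num)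
    have h4 : (1000039 / 10 ^ 6 - 1 : ℝ) ≤ 1 / 100000 * 13 := by norm_num
    linarith
  have h1 : Real.log ((1000039 : ℝ) ^ d) ≤ Real.log (((10 : ℝ) ^ 6) ^ n) := by
    rw [Real.log_pow, Real.log_pow]
    have h3 : (100001 : ℝ) * d ≤ 100000 * n := by exact_mod_cast h
    have h4 := log_million_gt
    have h5 : (d : ℝ) * Real.log 1000039 ≤
        d * (Real.log (10 ^ 6) + 1 / 100000 * Real.log (10 ^ 6)) :=
      mul_le_mul_of_nonneg_left h0 (Nat.cast_nonneg _)
    have h6 : (d : ℝ) * (1 + 1 / 100000) ≤ n := by linarith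
    have h7 : (d : ℝ) * (1 + 1 / 100000) * Real.log (10 ^ 6) ≤ n * Real.log (10 ^ 6) :=
      mul_le_mul_of_nonneg_right h6 (by linarith)
    have h8 : (d : ℝ) * (Real.log (10 ^ 6) + 1 / 100000 * Real.log (10 ^ 6)) =
      d * (1 + 1 / 100000) * Real.log (10 ^ 6) := by ring
    rw [h8] at h5
    exact h5.trans h7
  have h9 := (Real.log_le_log_iff (by positivity) (by positivity)).1 h1
  exact_mod_cast h9

/-- **upper bound of the growth of `NL`**, late indices -/
theorem exists_NL_le {m : Sq} {k : ℕ} (hm : m.Ok) [hQ : BigQ m k] : ∃ l0 C : ℕ, ∀ l' l n, l0 ≤ l' → l' ≤ l →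
    10001 * (l - l') + C ≤ 10000 * n → NL m k l ≤ NL m k l' * (10 ^ 6) ^ n := by
  have hB := BP_pos k
  obtain ⟨l0, h0⟩ := exists_nb_le (k := k) hm
  refine ⟨l0, 20000 * (BP k + 1), fun l' l n h1 h2 h3 => ?_⟩
  have h4 := h0 l' l h1
  have h5 := NL_le_nb m k h2
  set d := l - l' with hd
  have h6 : BP k ^ nb m k l' l ≤ (10 ^ 6) ^ (d / 10 ^ 6 + BP k) := by
    have h8 : BP k ≤ (10 ^ 6) ^ BP k := (Nat.lt_pow_self (by norm_num : 1 < 10 ^ 6)).le
    have h9 : BP k * nb m k l' l ≤ d / 10 ^ 6 + BP k := by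
      calc BP k * nb m k l' l ≤ BP k * (d / (10 ^ 6 * BP k) + 1) := Nat.mul_le_mul_left _ h4
        _ = BP k * (d / 10 ^ 6 / BP k) + BP k := by rw [← Nat.div_div_eq_div_mul]; ring
        _ ≤ _ := Nat.add_le_add_right (Nat.mul_div_le _ _) _
    calc BP k ^ nb m k l' l ≤ ((10 ^ 6) ^ BP k) ^ nb m k l' l := Nat.pow_le_pow_left h8 _
      _ = (10 ^ 6) ^ (BP k * nb m k l' l) := by rw [← pow_mul]
      _ ≤ _ := Nat.pow_le_pow_right (by norm_num) h9
  have e6 : (10 : ℕ) ^ 6 = 1000000 := by norm_num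
  have h7 : 1000039 ^ d ≤ (10 ^ 6) ^ (d + d / 100000 + 1) := by
    apply buf_pow_le
    omega
  refine h5.trans (Nat.mul_le_mul_left _ ?_)
  calc 1000039 ^ d * BP k ^ nb m k l' l
      ≤ (10 ^ 6) ^ (d + d / 100000 + 1) * (10 ^ 6) ^ (d / 10 ^ 6 + BP k) :=
        Nat.mul_le_mul h7 h6
    _ = (10 ^ 6) ^ (d + d / 100000 + 1 + (d / 10 ^ 6 + BP k)) := by rw [← pow_add]
    _ ≤ (10 ^ 6) ^ n := by
        apply Nat.pow_le_pow_right (by norm_num)
        rw [e6]
        omega

end Pool.Agent.Helper30.T5g
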