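import Pool.Agent.Helper30.T5g.Size

/-!
# T5g (MP_12a1af): fronts

`ez m t l` = front belonging to the size `SS m t`: lead between `5.5` and `6.5` steps
`PZ m t = SS m t / 2 ^ 9`.  In the state `l` (`s = sv`, `b = dv - k`) the joint level has the front
`ez m s l`, the static level `j` (`b < j ≤ s`) has the front `ez m (j - 1) l`.
-/

set_option autoImplicit false

namespace Pool.Agent.Helper30.T5g

open Finset Pool.Agent.Helper5.ET Pool.Agent.Helper27.T4 Pool.Agent.Helper37.T5g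
open Pool.Agent.Helper27.T5b Pool.Agent.Helper37.T5 Pool.Agent.Helper30.T5
open Pool.Agent.Helper27.T5 (sp gw)

/-! ## steps -/

theorem PZ_mul {m : Sq} (hm : m.Ok) (t : ℕ) : 512 * PZ m t = SS m t := by
  unfold PZ
  have h : 2 ^ 9 ∣ SS m t := (pow_dvd_pow 2 (by norm_num)).trans (dvd_SS hm t)
  have h2 := Nat.mul_div_cancel' h
  norm_num at h2 ⊢
  exact h2

theorem PZ_pos {m : Sq} (hm : m.Ok) (t : ℕ) : 0 < PZ m t := by
  have h1 := PZ_mul hm t
  have h2 := SS_pos m t
  omega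

/-- the steps: `P_(t+1) = 2 * N * P_t` -/
theorem PZ_succ {m : Sq} (hm : m.Ok) (t : ℕ) : PZ m (t + 1) = 2 * 2 ^ (m.q t) * PZ m t := by
  have h1 := PZ_mul hm t
  have h2 := PZ_mul hm (t + 1)
  have h3 := SS_succ m t
  apply Nat.eq_of_mul_eq_mul_left (show 0 < 512 by norm_num)
  rw [h2, h3, ← h1, pow_succ]
  ring

theorem PZ_dvd {m : Sq} (hm : m.Ok) {t t' : ℕ} (h : t < t') :
    ∃ N, 0 < N ∧ PZ m t' = 2 * N * PZ m t := by
  obtain ⟨d, rfl⟩ := Nat.exists_eq_add_of_lt h
  clear h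
  induction d with
  | zero => exact ⟨_, by positivity, PZ_succ hm t⟩
  | succ d ih =>
    obtain ⟨N, h1, h2⟩ := ih
    refine ⟨2 * 2 ^ (m.q (t + d + 1)) * N, by positivity, ?_⟩
    have h3 := PZ_succ hm (t + d + 1)
    have e : t + (d + 1) + 1 = t + d + 1 + 1 := by ring
    rw [e, h3, h2]
    ring

theorem PZ_mono (m : Sq) : Monotone (PZ m) := fun _ _ h => Nat.div_le_div_right (SS_mono m h)

theorem PZ_succ_ge {m : Sq} (hm : m.Ok) (t : ℕ) : 2 ^ 200 * PZ m t ≤ PZ m (t + 1) := by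
  rw [PZ_succ hm]
  apply Nat.mul_le_mul_right
  rw [← pow_succ']
  apply Nat.pow_le_pow_right (by norm_num)
  have := hm.q t
  omega

theorem PZ_lt {m : Sq} (hm : m.Ok) {t t' : ℕ} (h : t < t') : 2 ^ 200 * PZ m t ≤ PZ m t' :=
  (PZ_succ_ge hm t).trans (PZ_mono m h)

theorem thousand_PZ {m : Sq} (hm : m.Ok) {t t' : ℕ} (h : t < t') : 1024 * PZ m t ≤ PZ m t' :=
  big_aux (PZ_lt hm h)

/-! ## leads -/

theorem two_ez_le (m : Sq) (t l : ℕ) : 2 * ez m t l ≤ 2 * l + 13 * PZ m t := by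
  have := two_fr_le (PZ m t) 6 l
  unfold ez
  omega

theorem lt_two_ez {m : Sq} (hm : m.Ok) (t l : ℕ) : 2 * l + 11 * PZ m t < 2 * ez m t l := by
  have := lt_two_fr (PZ m t) 6 l (PZ_pos hm t)
  unfold ez
  omega

theorem lt_ez {m : Sq} (hm : m.Ok) (t l : ℕ) : l < ez m t l := by
  have := lt_two_ez hm t l
  omega

/-- `64 (e - l) ≤ S` -/
theorem ez_sub_le {m : Sq} (hm : m.Ok) (t l : ℕ) : 64 * (ez m t l - l) ≤ SS m t := by
  have h1 := two_ez_le m t l
  have h2 := PZ_mul hm t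
  omega

/-- `11 S < 1024 (e - l)` -/
theorem lt_ez_sub {m : Sq} (hm : m.Ok) (t l : ℕ) : 11 * SS m t < 1024 * (ez m t l - l) := by
  have h1 := lt_two_ez hm t l
  have h2 := PZ_mul hm t
  omega

/-- the fronts move forward -/
theorem ez_mono (m : Sq) (t : ℕ) {l l' : ℕ} (h : l' ≤ l) : ez m t l' ≤ ez m t l := fr_mono _ _ h

theorem ez_le_add {m : Sq} (hm : m.Ok) (t l l' : ℕ) :
    ez m t l < ez m t l' + (l - l') + PZ m t := fr_le_add _ _ (PZ_pos hm t)

/-- fronts of larger sizes are further away -/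
theorem ez_lt {m : Sq} (hm : m.Ok) {t t' : ℕ} (h : t < t') (l : ℕ) : ez m t l < ez m t' l := by
  have h1 := two_ez_le m t l
  have h2 := lt_two_ez hm t' l
  have h3 := thousand_PZ hm h
  omega

theorem ez_le {m : Sq} (hm : m.Ok) {t t' : ℕ} (h : t ≤ t') (l : ℕ) : ez m t l ≤ ez m t' l := by
  rcases Nat.eq_or_lt_of_le h with h | h
  · rw [h]
  · exact (ez_lt hm h l).le

/-- the distance of two fronts -/
theorem ez_sub {m : Sq} (hm : m.Ok) {t t' : ℕ} (h : t < t') (l : ℕ) :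
    ez m t l + 5 * PZ m t' ≤ ez m t' l := by
  have h1 := two_ez_le m t l
  have h2 := lt_two_ez hm t' l
  have h3 := thousand_PZ hm h
  omega

/-! ## jumps -/

/-- a common front bounds the distance -/
theorem dist_of_common {m : Sq} (hm : m.Ok) {t l l' : ℕ} (h : l' ≤ l)
    (he : ez m t l' = ez m t l) : l - l' < PZ m t := dist_lt (PZ_pos hm t) h he

/-- a front which has jumped has moved by at least one step -/
theorem ez_add_step {m : Sq} {t l l' : ℕ} (h : l' ≤ l) (he : ez m t l' ≠ ez m t l) :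
    ez m t l' + PZ m t ≤ ez m t l := fr_add_step _ _ h he

/-- two different fronts which have both jumped -/
theorem two_jumps {m : Sq} (hm : m.Ok) {t t' l l' : ℕ} (ht : t < t') (h : l' ≤ l)
    (h1 : ez m t l' ≠ ez m t l) (h2 : ez m t' l' ≠ ez m t' l) : PZ m t < 2 * (l - l') := by
  obtain ⟨N, hN, hP⟩ := PZ_dvd hm ht
  exact jump_sep (P := PZ m t') (Q := PZ m t) (PZ_pos hm t) hN hP h h2 h1

/-- short intervals: at most one jump -/
theorem one_jump' {m : Sq} (hm : m.Ok) {t t' l l' : ℕ} (ht : t < t') (h : l' ≤ l)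
    (hd : 2 * (l - l') ≤ PZ m t) : ez m t l' = ez m t l ∨ ez m t' l' = ez m t' l := by
  by_contra hc
  push Not at hc
  have := two_jumps hm ht h hc.1 hc.2
  omega

/-! ## the finest common front -/

theorem exists_fz (m : Sq) (b s l' l : ℕ) : ∃ t, b ≤ t ∧ (s < t ∨ ez m t l' = ez m t l) :=
  ⟨max b (s + 1), le_max_left _ _, Or.inl (Nat.lt_of_succ_le (le_max_right _ _))⟩

/-- the finest common front among the sizes `b, ..., s` (`s + 1` if there is none) -/
def fz (m : Sq) (b s l' l : ℕ) : ℕ := Nat.find (exists_fz m b s l' l)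

theorem fz_ge (m : Sq) (b s l' l : ℕ) : b ≤ fz m b s l' l := (Nat.find_spec (exists_fz m b s l' l)).1

theorem fz_le {b s : ℕ} (hb : b ≤ s + 1) (m : Sq) (l' l : ℕ) : fz m b s l' l ≤ s + 1 :=
  Nat.find_min' _ ⟨hb, Or.inl (Nat.lt_succ_self s)⟩

theorem fz_common {m : Sq} {b s l' l : ℕ} (h : fz m b s l' l ≤ s) :
    ez m (fz m b s l' l) l' = ez m (fz m b s l' l) l :=
  (Nat.find_spec (exists_fz m b s l' l)).2.resolve_left (not_lt.2 h)

theorem fz_jumped {m : Sq} {b s l' l t : ℕ} (hb : b ≤ t) (ht : t < fz m b s l' l) :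
    ez m t l' ≠ ez m t l := by
  intro h
  exact Nat.find_min (exists_fz m b s l' l) ht ⟨hb, Or.inr h⟩

theorem fz_le_of {m : Sq} {b s l' l t : ℕ} (hb : b ≤ t) (h : ez m t l' = ez m t l) :
    fz m b s l' l ≤ t := Nat.find_min' _ ⟨hb, Or.inr h⟩

/-- distance in terms of the finest common front, upper bound -/
theorem fz_dist {m : Sq} (hm : m.Ok) {b s l' l : ℕ} (hl : l' ≤ l) (h : fz m b s l' l ≤ s) :
    l - l' < PZ m (fz m b s l' l) := dist_of_common hm hl (fz_common h)

/-- distance in terms of the finest common front, lower bound (two finer fronts have jumped) -/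
theorem lt_fz_dist {m : Sq} (hm : m.Ok) {b s l' l : ℕ} (hl : l' ≤ l)
    (h : b + 2 ≤ fz m b s l' l) : PZ m (fz m b s l' l - 2) < 2 * (l - l') := by
  have h1 : ez m (fz m b s l' l - 2) l' ≠ ez m (fz m b s l' l - 2) l :=
    fz_jumped (b := b) (s := s) (by omega) (by omega)
  have h2 : ez m (fz m b s l' l - 1) l' ≠ ez m (fz m b s l' l - 1) l :=
    fz_jumped (b := b) (s := s) (by omega) (by omega)
  exact two_jumps hm (by omega) hl h1 h2

theorem fz_eq_of_eq (m : Sq) (b s l : ℕ) : fz m b s l l = b :=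
  le_antisymm (fz_le_of le_rfl rfl) (fz_ge _ _ _ _ _)

/-- all fronts from the finest common one up to distance: the window `(l', e]` of a common front
of size `t` has length at most `7.5` steps -/
theorem common_window {m : Sq} (hm : m.Ok) {t l l' : ℕ}
    (he : ez m t l' = ez m t l) : 2 * (ez m t l - l') ≤ 13 * PZ m t ∧ l' < ez m t l := by
  have h1 := two_ez_le m t l'
  have h2 := lt_ez hm t l'
  rw [he] at h1 h2
  omega

end Pool.Agent.Helper30.T5g
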