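import Pool.Agent.Helper30.T5g.Front
import Pool.Agent.Helper37.T5g.Ev

/-!
# T5g (MP_12a1af): the levels of a state in terms of the position, borders near a common front
-/

set_option autoImplicit false

namespace Pool.Agent.Helper30.T5g

open Finset Pool.Agent.Helper5.ET Pool.Agent.Helper27.T4 Pool.Agent.Helper37.T5g
open Pool.Agent.Helper27.T5b Pool.Agent.Helper37.T5 Pool.Agent.Helper30.T5
open Pool.Agent.Helper27.T5 (sp gw)

/-! ## the level against the position -/

/-- the size of the next level is at most the border -/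
theorem SS_sv_succ_le {m : Sq} {k : ℕ} (hm : m.Ok) {y : ℕ} (h : kt m k ≤ era y) :
    SS m (sv m k y + 1) ≤ bb (era y) := by
  have h1 := lv_le_sv m k y
  have h2 := sv_le_lv_succ m k y
  rcases Nat.eq_or_lt_of_le h1 with h3 | h3
  · rw [← h3]
    rcases Nat.eq_or_lt_of_le (k_le_lv hm k (era y)) with h4 | h4
    · rw [← h4]
      exact (kt_spec m k).trans (bb_strictMono.monotone h)
    · have h5 := bb_ge_of_lv hm (k := k) (j := era y) (t := lv m k (era y) - 1) (by omega)
        (by omega)
      have e : lv m k (era y) - 1 + 2 = lv m k (era y) + 1 := by omega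
      rwa [e] at h5
  · -- special era after SPLIT
    have h4 : spec m k (era y) := by
      by_contra hc
      have : sv m k y = lv m k (era y) := by
        unfold sv
        rw [if_neg (fun h => hc h.1), add_zero]
      omega
    have h5 := kt_spec m (lv m k (era y) + 1)
    unfold spec at h4
    rw [h4] at h5
    have e : sv m k y + 1 = lv m k (era y) + 1 + 1 := by omega
    rw [e]
    exact h5

theorem SS_sv_succ_le' {m : Sq} {k : ℕ} (hm : m.Ok) {y : ℕ} (hy : bb 0 ≤ y) (h : kt m k ≤ era y) :
    SS m (sv m k y + 1) ≤ y := (SS_sv_succ_le hm h).trans (era_spec y hy).1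

theorem Tk_succ {m : Sq} (hm : m.Ok) (t : ℕ) : Tk m t ≤ Tk m (t + 1) := by
  unfold Tk
  apply Nat.pow_le_pow_right (by norm_num)
  have h1 := hm.T2 t
  rw [aa_succ m (t + 1)]
  omega

theorem Tk_mono {m : Sq} (hm : m.Ok) : Monotone (Tk m) := monotone_nat_of_le_succ (Tk_succ hm)

/-- the border is at most twice the threshold of the next level -/
theorem bb_lt_Tk {m : Sq} (hm : m.Ok) (k y : ℕ) : bb (era y) < 2 * Tk m (sv m k y + 1) :=
  (bb_lt_of_lv hm k (era y)).trans_le
    (Nat.mul_le_mul_left _ (Tk_mono hm (by have := lv_le_sv m k y; omega)))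

theorem lt_Tk {m : Sq} (hm : m.Ok) (k : ℕ) {y : ℕ} (hy : bb 0 ≤ y) :
    y < 4 * Tk m (sv m k y + 1) := by
  have h1 := (era_spec y hy).2
  have h2 := bb_succ_le (era y)
  have h3 := bb_lt_Tk hm k y
  omega

/-- the position against the size of the second next level -/
theorem lt_SS {m : Sq} (hm : m.Ok) (k : ℕ) {y : ℕ} (hy : bb 0 ≤ y) :
    y < 4 * (2 ^ m.kap (sv m k y + 1) * SS m (sv m k y + 2)) := by
  have h := lt_Tk hm k hy
  rwa [Tk_eq] at h

/-- in exponents -/
theorem aa_sv_succ_le {m : Sq} {k : ℕ} (hm : m.Ok) {y : ℕ} (hy : bb 0 ≤ y)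
    (h : kt m k ≤ era y) : aa m (sv m k y + 1) ≤ Nat.log 2 y :=
  Nat.le_log_of_pow_le (by norm_num) (SS_sv_succ_le' hm hy h)

/-! ## quotients of the sizes -/

/-- **bound of all quotients** `SS t / SS (t - 1)`, `t ≤ s + 2` -/
def Gq (m : Sq) (s : ℕ) : ℕ := 2 ^ (m.q (s + 1) + 1)

theorem Gq_pos (m : Sq) (s : ℕ) : 0 < Gq m s := by unfold Gq; positivity

theorem Gq_mono {m : Sq} (hm : m.Ok) : Monotone (Gq m) := fun _ _ h =>
  Nat.pow_le_pow_right (by norm_num) (Nat.succ_le_succ (q_mono hm (Nat.succ_le_succ h)))

theorem Gq_ge {m : Sq} (hm : m.Ok) (s : ℕ) : 2 ^ 400 ≤ Gq m s :=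
  Nat.pow_le_pow_right (by norm_num) (le_trans (hm.q (s + 1)) (Nat.le_succ _))

theorem SS_succ_le_Gq {m : Sq} (hm : m.Ok) {s t : ℕ} (ht : t ≤ s + 1) :
    SS m (t + 1) ≤ Gq m s * SS m t := by
  rw [SS_succ, mul_comm]
  apply Nat.mul_le_mul_right
  exact Nat.pow_le_pow_right (by norm_num) (Nat.succ_le_succ (q_mono hm ht))

/-- neighbouring sizes: `SS t ≤ G ^ d * SS (t - d)` for `t ≤ s + 2` -/
theorem SS_le_mul_SS {m : Sq} (hm : m.Ok) {s t d : ℕ} (ht : t ≤ s + 2) (hd : d ≤ t) :
    SS m t ≤ Gq m s ^ d * SS m (t - d) := by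
  induction d with
  | zero => simp
  | succ d ih =>
    have h1 := ih (by omega)
    have e : t - d = (t - (d + 1)) + 1 := by omega
    rw [e] at h1
    have h2 := SS_succ_le_Gq hm (s := s) (t := t - (d + 1)) (by omega)
    refine h1.trans ((Nat.mul_le_mul_left _ h2).trans (le_of_eq ?_))
    rw [pow_succ, mul_assoc]

/-- sizes of smaller levels are much smaller: `SS t * 2 ^ (d (q t + 1)) ≤ SS (t + d)` -/
theorem SS_mul_pow_le {m : Sq} (hm : m.Ok) (t d : ℕ) :
    SS m t * 2 ^ (d * (m.q t + 1)) ≤ SS m (t + d) := by
  induction d with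
  | zero => simp
  | succ d ih =>
    have h1 : (d + 1) * (m.q t + 1) = d * (m.q t + 1) + (m.q t + 1) := by ring
    have e : t + (d + 1) = t + d + 1 := by ring
    rw [e, SS_succ, h1, pow_add, ← mul_assoc]
    exact Nat.mul_le_mul ih (Nat.pow_le_pow_right (by norm_num)
      (Nat.succ_le_succ (q_mono hm (Nat.le_add_right _ _))))

/-- **the position against the size of a level** -/
theorem lt_mul_SS {m : Sq} {k : ℕ} (hm : m.Ok) {y i : ℕ} (hy : bb 0 ≤ y)
    (hi : i ≤ sv m k y) :
    y < 4 * 2 ^ m.kap (sv m k y + 1) * Gq m (sv m k y) ^ (i + 2) * SS m (sv m k y - i) := by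
  have h1 := lt_SS hm k hy
  have h2 := SS_le_mul_SS hm (s := sv m k y) (t := sv m k y + 2) (d := i + 2) le_rfl (by omega)
  have e : sv m k y + 2 - (i + 2) = sv m k y - i := by omega
  rw [e] at h2
  refine h1.trans_le ?_
  rw [mul_assoc (4 * 2 ^ m.kap (sv m k y + 1)), mul_assoc 4]
  exact Nat.mul_le_mul_left _ (Nat.mul_le_mul_left _ h2)

/-- the innermost size is small: `SS (s - i) * 2 ^ ((i + 1) (q (s - i) + 1)) ≤ y` -/
theorem SS_mul_pow_le_pos {m : Sq} {k : ℕ} (hm : m.Ok) {y i : ℕ} (hy : bb 0 ≤ y)
    (h : kt m k ≤ era y) (hi : i ≤ sv m k y) :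
    SS m (sv m k y - i) * 2 ^ ((i + 1) * (m.q (sv m k y - i) + 1)) ≤ y := by
  have h1 := SS_mul_pow_le hm (sv m k y - i) (i + 1)
  have e : sv m k y - i + (i + 1) = sv m k y + 1 := by omega
  rw [e] at h1
  exact h1.trans (SS_sv_succ_le' hm hy h)

/-! ## borders -/

/-- an interval of the chain which contains main digits of two different eras contains a whole
buffer block -/
theorem border_block {m : Sq} {k : ℕ} (hm : m.Ok) {l' u y z : ℕ} (hy0 : bb 0 ≤ y) (he : era y < era z)
    (hyz : y ≤ z) (hy : l' ≤ pos (ins m k) y) (hz : pos (ins m k) z < u) :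
    l' ≤ beg (ins m k) (bb (era z)) ∧ pos (ins m k) (bb (era z)) < u ∧
      RB m (lv m k (era z)) ≤ u - l' := by
  have h1 := (era_spec y hy0).2
  have h2 : bb (era y + 1) ≤ bb (era z) := bb_strictMono.monotone he
  have h3 := (era_spec z (hy0.trans hyz)).1
  have h4 : pos (ins m k) (bb (era z)) < u :=
    lt_of_le_of_lt ((pos_strictMono (ins m k)).monotone h3) hz
  have h5 := block_in (ins := ins m k) (show y < bb (era z) by omega) hy h4
  rw [ins_bb hm] at h5
  exact h5

/-- the window of a common front of a static level contains no border -/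
theorem no_border_of_common {m : Sq} {k : ℕ} (hm : m.Ok) {l' l t y z : ℕ}
    (hlate : kt m k ≤ era (l1 (ins m k) l)) (hl0 : bb 0 ≤ l1 (ins m k) l')
    (hl : l' ≤ l) (ht : t < sv m k (l1 (ins m k) l)) (he : ez m t l' = ez m t l)
    (hy0 : bb 0 ≤ y) (hyz : y ≤ z) (hy : l' ≤ pos (ins m k) y)
    (hz : pos (ins m k) z < ez m t l) : era y = era z := by
  by_contra hc
  have hlt : era y < era z := lt_of_le_of_ne (era_mono hyz) hc
  obtain ⟨b1, b2, b3⟩ := border_block hm hy0 hlt hyz hy hz
  have hw := common_window hm he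
  have hdist := dist_of_common hm hl he
  set y0 := l1 (ins m k) l with hy0def
  have hs1 := SS_sv_succ_le hm hlate
  have hyy : bb 0 ≤ y0 := hl0.trans (l1_mono (ins m k) hl)
  have hsp := era_spec y0 hyy
  -- it suffices that `t < lv (era z)`
  have key : t < lv m k (era z) := by
    rcases Nat.lt_or_ge y0 (bb (era z)) with hA | hA
    · -- the border comes after the state
      have h1 : era y0 < era z := by
        by_contra hc2
        have := bb_strictMono.monotone (not_lt.1 hc2)
        omega
      exact ht.trans_le ((sv_le_lv_next hm y0).trans (lv_mono hm k h1))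
    · -- the border lies between `l'` and `l`
      have h1 : era z ≤ era y0 := by
        by_contra hc2
        have := bb_strictMono.monotone (show era y0 + 1 ≤ era z by omega)
        omega
      have hbeg : beg (ins m k) y0 ≤ l := beg_l1_le (ins m k) l
      -- distance of the main digits
      have h2 : y0 ≤ bb (era z) + (l - l') := by
        have h3 : beg (ins m k) (bb (era z)) + (y0 - bb (era z)) ≤ beg (ins m k) y0 := by
          have : ∀ d, beg (ins m k) (bb (era z)) + d ≤ beg (ins m k) (bb (era z) + d) := by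
            intro d
            induction d with
            | zero => simp
            | succ d ih =>
              have h4 := beg_succ (ins m k) (bb (era z) + d)
              have h5 := beg_le_pos (ins m k) (bb (era z) + d)
              have e : bb (era z) + (d + 1) = bb (era z) + d + 1 := by ring
              rw [e, h4]
              omega
          have h4 := this (y0 - bb (era z))
          rwa [Nat.add_sub_cancel' hA] at h4
        omega
      rcases Nat.eq_or_lt_of_le h1 with h3 | h3
      · -- same era: no SPLIT yet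
        by_contra hc2
        have h4 := sv_le_lv_succ m k y0
        rw [h3] at hc2
        have h5 : sv m k y0 = lv m k (era y0) + 1 := by omega
        have h6 : spec m k (era y0) ∧ nS m k (lv m k (era y0) + 1) ≤ y0 := by
          by_contra hc3
          unfold sv at h5
          rw [if_neg hc3] at h5
          omega
        have h7 := Zt_le_ut hm (lv m k (era y0) + 1)
        have h8 := ut_le_nE m k (lv m k (era y0) + 1)
        have h9 := nE_le_nD m k (lv m k (era y0) + 1)
        have h10 := h6.1
        unfold spec at h10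
        rw [h10] at h7
        have h11 : PZ m t ≤ Zt m (lv m k (era y0) + 1) := by
          have a1 := PZ_mul hm t
          have a2 := SS_mono m (show t ≤ lv m k (era y0) + 1 by omega)
          unfold Zt
          omega
        rw [h3] at h2
        have h12 : Zt m (lv m k (era y0) + 1) ≤ nE m k (lv m k (era y0) + 1) - bb (era y0) := by
          omega
        omega
      · -- a whole era lies between: impossible
        exfalso
        have h4 : bb (era z + 1) ≤ bb (era y0) := bb_strictMono.monotone h3
        have h5 := len_bounds (era z)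
        have h6 := bb_add_len (era z)
        have h7 : 1024 * PZ m t ≤ bb (era y0) := by
          have a1 := PZ_mul hm t
          have a2 := SS_mono m (show t ≤ sv m k y0 by omega)
          have a3 := SS_succ_ge hm (sv m k y0)
          have a4 : 2 ^ 250 * SS m (sv m k y0) = 2 ^ 249 * (2 * SS m (sv m k y0)) := by ring
          have a5 : 2 * SS m (sv m k y0) ≤ 2 ^ 249 * (2 * SS m (sv m k y0)) :=
            Nat.le_mul_of_pos_left _ (by positivity)
          omega
        have h8 := bb_ge_pow (era z)
        have h9 := bb_succ_le (era z)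
        omega
  -- the buffer block is too long
  have hRB : RB m (lv m k (era z)) = 9 * PZ m (lv m k (era z) - 1) := rfl
  have h1 := PZ_mono m (show t ≤ lv m k (era z) - 1 by omega)
  have h2 := PZ_pos hm t
  rw [hRB] at b3
  omega

end Pool.Agent.Helper30.T5g
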