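import Pool.Agent.Helper99.T5g.Top
import Pool.Agent.Helper29.T5g.FarInst
import Pool.Agent.Helper29.T5g.Free
import Pool.Agent.Helper57.T5g.Bot
import Pool.Agent.Helper83.T5g.Leaf
import Pool.Agent.Helper87.OUT2g.Final
import Pool.Agent.Helper87.OUT2g.Crude
import Pool.Agent.Helper22.NEARg.Stat
import Pool.Agent.Helper22.NEARsg.Stat
import Pool.Agent.Helper3.T5g.MidEnd
import Pool.Agent.Helper1.T5g.Lines67
import Pool.Agent.Helper36.T5g.TwoRpc
import Pool.Agent.Helper98.S3Pg.Top
import Pool.Agent.Helper48.T5g.TwoNear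
import Pool.Agent.Helper54.T5g.SMFin
import Pool.Agent.Helper54.T5g.S3Fin
import Pool.Agent.Helper21.T5g.SZInj

/-!
# T5g (MP_12a1af): the assembly
-/

set_option autoImplicit false

namespace Pool.Agent.Helper30.T5g

open Pool.Agent.Helper37.T5g Pool.Agent.Helper84.T5g Pool.Agent.Helper99.T5g

theorem blocks : Blocks where
  far := Pool.Agent.Helper29.T5g.far
  bot := Pool.Agent.Helper57.T5g.blk_bot
  botD := Pool.Agent.Helper57.T5g.blk_botD
  botS := Pool.Agent.Helper57.T5g.blk_botS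
  stat := Pool.Agent.Helper22.NEARg.blk_stat
  statD := Pool.Agent.Helper22.NEARg.blk_statD
  statS := Pool.Agent.Helper22.NEARsg.blk_statS
  inj := Pool.Agent.Helper1.T5g.blk_inj
  two := Pool.Agent.Helper36.T5g.blk_two
  mid := Pool.Agent.Helper3.T5g.mid
  crude := Pool.Agent.Helper87.OUT2g.blk_crude
  splitInj := Pool.Agent.Helper21.T5g.blk_splitInj
  splitTwo := Pool.Agent.Helper98.S3Pg.splitTwo_of Pool.Agent.Helper48.T5g.blk_twoNear
    Pool.Agent.Helper54.T5g.splitTwoFar
  splitMid := Pool.Agent.Helper54.T5g.splitMid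
  splitCrude := Pool.Agent.Helper29.T5g.splitCrude

end Pool.Agent.Helper30.T5g
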