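import Pool.Agent.Helper30.T5g.NLb

/-!
# T5g (MP_12a1af): the primes against the quotients of the sizes, fixed quotient
-/

set_option autoImplicit false

namespace Pool.Agent.Helper30.T5g

open Pool.Agent.Helper37.T5g

theorem nth_prime_le (n : ℕ) : Nat.nth Nat.Prime n ≤ 2 ^ (n + 1) := by
  induction n with
  | zero => simp
  | succ n ih =>
    have h0 : Nat.nth Nat.Prime n ≠ 0 := (Nat.prime_nth_prime n).ne_zero
    obtain ⟨p, hp, h1, h2⟩ := Nat.exists_prime_lt_and_le_two_mul _ h0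
    have h3 : Nat.nth Nat.Prime (n + 1) ≤ p := by
      by_contra hc
      push Not at hc
      obtain ⟨i, hi⟩ : ∃ i, Nat.nth Nat.Prime i = p :=
        ⟨Nat.count Nat.Prime p, Nat.nth_count hp⟩
      rw [← hi] at h1 hc
      have h6 := (Nat.nth_lt_nth Nat.infinite_setOfPred_prime).1 h1
      have h7 := (Nat.nth_lt_nth Nat.infinite_setOfPred_prime).1 hc
      omega
    calc Nat.nth Nat.Prime (n + 1) ≤ 2 * Nat.nth Nat.Prime n := h3.trans h2
      _ ≤ 2 * 2 ^ (n + 1) := Nat.mul_le_mul_left _ ih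
      _ = 2 ^ (n + 1 + 1) := by ring

theorem exists_BP_le_two : ∃ N : ℕ, ∀ k, BP k ≤ 2 ^ (3 * k + N) := by
  refine ⟨10 ^ 6 + 10, fun k => ?_⟩
  unfold BP Pool.Agent.Helper27.T5.sp
  generalize 10 ^ 6 = N
  refine (nth_prime_le _).trans (Nat.pow_le_pow_right (by norm_num) ?_)
  omega

/-- `2 ^ 40 * BP κ ≤ 2 ^ (gr)`-type bounds of the schedule with fixed quotient -/
theorem exists_BP_sqF : ∃ κ0 : ℕ, ∀ κ, κ0 ≤ κ → ∀ a t, 2 ^ 40 * BP κ ≤ 2 ^ (sqF κ a).q t := by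
  obtain ⟨N, hN⟩ := exists_BP_le_two
  refine ⟨N, fun κ hκ a t => ?_⟩
  refine (Nat.mul_le_mul_left _ (hN κ)).trans ?_
  rw [← pow_add]
  refine Nat.pow_le_pow_right (by norm_num) ?_
  show 40 + (3 * κ + N) ≤ 20 * κ + 400
  omega

theorem exists_bigQ_sqF : ∃ κ0 : ℕ, ∀ κ, κ0 ≤ κ → ∀ a, BigQ (sqF κ a) κ := by
  obtain ⟨κ0, h⟩ := exists_BP_sqF
  refine ⟨κ0, fun κ hκ a => ⟨0, fun t _ => ?_⟩⟩
  refine le_trans ?_ ((h κ hκ a t).trans (Nat.pow_le_pow_right (by norm_num)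
    (Nat.le_add_right _ _)))
  exact Nat.mul_le_mul_right _ (by norm_num)

end Pool.Agent.Helper30.T5g
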