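import Pool.Agent.Helper84.T5g.Pair
import Pool.Agent.Helper37.T5g.OneEvent
import Pool.Agent.Helper27.T5g.Range
import Pool.Agent.Helper30.T5g.BigQF

/-!
# T5g (MP_12a1af): the used states

`apart_of_used`: two used states are equal or `Apart`.  `exists_used_below`: below every late index
there is a used state near it.  `used_dense`: the same with the moduli, in the form of
`Helper99.T5g.fixed_final`.
-/

set_option autoImplicit false

namespace Pool.Agent.Helper30.T5g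

open Finset Pool.Agent.Helper5.ET Pool.Agent.Helper37.T5g Pool.Agent.Helper84.T5g
open Pool.Agent.Helper99.T5g
open Pool.Agent.Helper27.T5b (l1 l1_mono l1_sub_le)

variable {m : Sq}

theorem bL_mono (hm : m.Ok) (k : ℕ) : Monotone (bL m k) := fun l' l h =>
  Nat.sub_le_sub_right (dv_mono hm k (l1_mono (ins m k) h)) k

/-- two used states are equal or apart -/
theorem apart_of_used (hm : m.Ok) {k l' l : ℕ} (hll : l' ≤ l) (h' : Used m k l')
    (h : Used m k l) : Apart m k l' l := by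
  rcases Nat.eq_or_lt_of_le hll with he | hlt
  · exact Or.inl he
  right
  by_cases hb : bL m k l' = bL m k l
  · refine ⟨?_, fun hc => absurd hb hc⟩
    have h1 := h'.1
    rw [hb] at h1
    have h2 : PZ m (bL m k l) ∣ l - l' := Nat.dvd_sub h.1 h1
    have h3 := Nat.le_of_dvd (by omega) h2
    omega
  · have h1 : l' < l - SS m (bL m k l) := by
      by_contra hc
      rw [not_lt] at hc
      have h2 := bL_mono hm k hc
      have h3 := bL_mono hm k hll
      have h4 := h.2.2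
      omega
    have h5 : PZ m (bL m k l) ≤ SS m (bL m k l) := Nat.div_le_self _ _
    exact ⟨by omega, fun _ => by omega⟩

/-! ## the DROPs -/

/-- near a late index there is at most one DROP -/
theorem exists_slow (hm : m.Ok) (hk : 3 ≤ m.k) : ∃ l0, ∀ l' l, l0 ≤ l' → l' ≤ l →
    l ≤ l' + 1000 * SS m (bL m m.k l' + 2) → bL m m.k l ≤ bL m m.k l' + 1 := by
  obtain ⟨l0, h0⟩ := oneEvent m hm
  refine ⟨l0, fun l' l hl' hll h => ?_⟩
  have hN : Near m m.k l' l := by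
    have h1 : mL m m.k l - mL m m.k l' ≤ l - l' := by
      have := l1_sub_le (ins m m.k) hll
      unfold mL
      omega
    have h2 := Pool.Agent.Helper27.T5g.bL_add_k hm m.k l'
    have h3 : dv m m.k (mL m m.k l') ≤ lv m m.k (era (mL m m.k l')) + 1 := by
      unfold dv
      split_ifs <;> omega
    have h4 : SS m (bL m m.k l' + 2) ≤ SS m (lv m m.k (era (mL m m.k l'))) :=
      SS_mono m (by omega)
    have h5 : Zt m (lv m m.k (era (mL m m.k l'))) ≤ ZZ m m.k (era (mL m m.k l')) := by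
      unfold ZZ
      split_ifs
      · exact Zt_mono m (Nat.le_succ _)
      · exact le_rfl
    have h6 : Zt m (lv m m.k (era (mL m m.k l'))) =
        4096 * SS m (lv m m.k (era (mL m m.k l'))) := rfl
    have h7 := SS_pos m (bL m m.k l' + 2)
    show 4 * (mL m m.k l - mL m m.k l') < ZZ m m.k (era (mL m m.k l'))
    omega
  rcases h0 l l' hl' hll hN with h1 | h1 | h1
  · have := h1.2
    unfold SameB at this
    omega
  · have := h1.2
    unfold Drop at this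
    omega
  · have := h1.2
    omega

theorem exists_le_bL (hm : m.Ok) (b : ℕ) : ∃ l, b ≤ bL m m.k l := by
  obtain ⟨l0, h⟩ := Pool.Agent.Helper27.T5g.exists_bL hm m.k b
  exact ⟨l0, (h l0 le_rfl).2⟩

open Classical in
/-- the position of the DROP with the last dropped level `b` -/
noncomputable def Dp (hm : m.Ok) (b : ℕ) : ℕ := Nat.find (exists_le_bL hm b)

theorem Dp_le_iff (hm : m.Ok) {b l : ℕ} : Dp hm b ≤ l ↔ b ≤ bL m m.k l := by
  classical
  unfold Dp
  constructor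
  · intro h
    exact (Nat.find_spec (exists_le_bL hm b)).trans (bL_mono hm m.k h)
  · exact fun h => Nat.find_min' _ h

theorem bL_eq_iff (hm : m.Ok) {b l : ℕ} :
    bL m m.k l = b ↔ Dp hm b ≤ l ∧ l < Dp hm (b + 1) := by
  rw [Dp_le_iff hm, ← not_le, Dp_le_iff hm]
  omega

/-- the DROPs are far from each other -/
theorem exists_Dp_gap (hm : m.Ok) (hk : 3 ≤ m.k) : ∃ b0, ∀ b ≥ b0,
    Dp hm b + 1000 * SS m (b + 1) ≤ Dp hm (b + 1) := by
  obtain ⟨l0, h0⟩ := exists_slow hm hk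
  refine ⟨bL m m.k (l0 + 1) + 1, fun b hb => ?_⟩
  have h1 : l0 + 1 < Dp hm b := by
    by_contra hc
    rw [not_lt, Dp_le_iff hm] at hc
    omega
  have h2 : bL m m.k (Dp hm b - 1) < b := by
    by_contra hc
    rw [not_lt, ← Dp_le_iff hm] at hc
    omega
  have h3 : b ≤ bL m m.k (Dp hm b) := (Dp_le_iff hm).1 le_rfl
  have h4 := SS_pos m (bL m m.k (Dp hm b - 1) + 2)
  have h5 := h0 (Dp hm b - 1) (Dp hm b) (by omega) (Nat.sub_le _ _) (by omega)
  have h6 : bL m m.k (Dp hm b - 1) + 2 = b + 1 := by omega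
  have h7 := h0 (Dp hm b - 1) (Dp hm b - 1 + 1000 * SS m (b + 1)) (by omega) (by omega)
    (by rw [h6])
  by_contra hc
  have h8 : Dp hm (b + 1) ≤ Dp hm b - 1 + 1000 * SS m (b + 1) := by omega
  rw [Dp_le_iff hm] at h8
  omega

theorem used_of (hm : m.Ok) {b K : ℕ} (hd : PZ m b ∣ K) (h1 : Dp hm b + SS m b ≤ K)
    (h2 : K + SS m (b + 1) < Dp hm (b + 1)) : Used m m.k K := by
  have h3 : bL m m.k K = b := (bL_eq_iff hm).2 (by omega)
  refine ⟨?_, ?_, ?_⟩
  · rwa [h3]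
  · rw [h3]
    exact (bL_eq_iff hm).2 (by omega)
  · rw [h3]
    exact (bL_eq_iff hm).2 (by omega)

/-- a multiple of `P` in `(x - P, x]` -/
theorem exists_mult {P : ℕ} (hP : 0 < P) (x : ℕ) : ∃ K, P ∣ K ∧ K ≤ x ∧ x < K + P := by
  refine ⟨P * (x / P), Dvd.intro _ rfl, Nat.mul_div_le _ _, ?_⟩
  have h1 := Nat.div_add_mod x P
  have h2 := Nat.mod_lt x hP
  omega

/-- **used states are dense** -/
theorem exists_used_below (hm : m.Ok) (hk : 3 ≤ m.k) : ∃ K0, ∀ K ≥ K0, ∃ K', K' ≤ K ∧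
    Used m m.k K' ∧ K ≤ K' + 4 * SS m (bL m m.k K + 1) := by
  obtain ⟨b0, h0⟩ := exists_Dp_gap hm hk
  obtain ⟨K0, hK0⟩ := Pool.Agent.Helper27.T5g.exists_bL hm m.k (b0 + 1)
  refine ⟨K0, fun K hK => ?_⟩
  have hb := (hK0 K hK).2
  obtain ⟨b, hbe⟩ : ∃ b, bL m m.k K = b + 1 := ⟨bL m m.k K - 1, by omega⟩
  rw [hbe] at hb ⊢
  obtain ⟨k1, k2⟩ := (bL_eq_iff hm).1 hbe
  have g1 := h0 b (by omega)
  have g2 := h0 (b + 1) (by omega)
  have s1 := SS_succ_ge hm b
  have s2 := SS_succ_ge hm (b + 1)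
  have s3 := SS_ge hm b
  have p1 : PZ m b ≤ SS m b := Nat.div_le_self _ _
  have p2 : PZ m (b + 1) ≤ SS m (b + 1) := Nat.div_le_self _ _
  have q1 := PZ_pos hm b
  have q2 := PZ_pos hm (b + 1)
  have u1 := fun K' => @used_of m hm b K'
  have u2 := fun K' => @used_of m hm (b + 1) K'
  by_cases hC : K < Dp hm (b + 1) + SS m (b + 1) + PZ m (b + 1)
  · -- just after a DROP
    obtain ⟨K', a1, a2, a3⟩ := exists_mult q1 (Dp hm (b + 1) - SS m (b + 1) - 1)
    refine ⟨K', by omega, u1 K' a1 ?_ ?_, ?_⟩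
    · omega
    · omega
    · omega
  · by_cases hA : K + SS m (b + 1 + 1) < Dp hm (b + 1 + 1)
    · obtain ⟨K', a1, a2, a3⟩ := exists_mult q2 K
      exact ⟨K', a2, u2 K' a1 (by omega) (by omega), by omega⟩
    · obtain ⟨K', a1, a2, a3⟩ := exists_mult q2 (Dp hm (b + 1 + 1) - SS m (b + 1 + 1) - 1)
      exact ⟨K', by omega, u2 K' a1 (by omega) (by omega), by omega⟩

/-! ## numbers -/

/-- the last dropped level is small -/
theorem exists_ratio_used (hm : OkF m) : ∃ K0, ∀ K ≥ K0,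
    SS m (bL m m.k K + 1) * 2 ^ ((m.q 0 + 1) * m.k) ≤ K := by
  obtain ⟨l0, h0⟩ := exists_late (k := m.k) hm.toOk 0 0
  refine ⟨l0, fun K hK => ?_⟩
  obtain ⟨_, a2, a3, _, _⟩ := h0 K hK
  have h1 := SS_sv_succ_le' hm.toOk a2 a3
  have h2 := (Pool.Agent.Helper27.T5g.rL_bounds hm.toOk m.k K).1
  have h3 : mL m m.k K ≤ K := Pool.Agent.Helper27.T5b.l1_le (ins m m.k) K
  have h4 : SS m (bL m m.k K + 1 + m.k) ≤ SS m (sL m m.k K + 1) := SS_mono m (by omega)
  have h5 : SS m (bL m m.k K + 1 + m.k) =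
      SS m (bL m m.k K + 1) * 2 ^ ((m.q 0 + 1) * m.k) := by
    unfold SS
    rw [hm.aa_eq, hm.aa_eq, ← pow_add]
    congr 1
    ring
  rw [← h5]
  exact h4.trans (h1.trans h3)

/-- **used states are dense, logarithmic form** -/
theorem used_dense (hm : OkF m) (hk : 4 ≤ m.k) {d : ℝ}
    (hd : d = (2 : ℝ) ^ (-((m.q 0 * m.k : ℕ) : ℝ)) / 3) :
    ∀ K1 : ℕ, ∃ K2 : ℕ, ∀ K, K2 ≤ K → ∃ K', K1 ≤ K' ∧ K' ≤ K ∧ Used m m.k K' ∧
      Real.log (NL m m.k (K + 2)) - Real.log (NL m m.k K') ≤ d * Real.log (NL m m.k K) := by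
  intro K1
  have hQ := bigQ_of_okF hm
  obtain ⟨Ka, ha⟩ := exists_used_below hm.toOk (by omega)
  obtain ⟨Kb, hb⟩ := exists_ratio_used hm
  obtain ⟨Kc, C, hc⟩ := exists_NL_le (k := m.k) hm.toOk
  obtain ⟨Kd, hd'⟩ := Pool.Agent.Helper27.T5g.exists_bL hm.toOk m.k (C + 20002)
  refine ⟨Ka + Kb + 2 * Kc + Kd + 2 * K1, fun K hK => ?_⟩
  obtain ⟨K', a1, a2, a3⟩ := ha K (by omega)
  have b1 := hb K (by omega)
  have d1 := (hd' K (by omega)).2
  set S := SS m (bL m m.k K + 1) with hS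
  have hSC : C + 20002 ≤ S :=
    Pool.Agent.Helper27.T5g.exists_SS_ge hm.toOk (C + 20002) _ (by omega)
  have hk2 : 16 * 2 ^ (m.q 0 * m.k) ≤ 2 ^ ((m.q 0 + 1) * m.k) := by
    rw [show (m.q 0 + 1) * m.k = m.k + m.q 0 * m.k by ring, pow_add]
    exact Nat.mul_le_mul_right _
      ((by norm_num : 16 = 2 ^ 4).le.trans (Nat.pow_le_pow_right (by norm_num) hk))
  have b2 : S * (16 * 2 ^ (m.q 0 * m.k)) ≤ K := (Nat.mul_le_mul_left S hk2).trans b1
  have hq1 : 1 ≤ 2 ^ (m.q 0 * m.k) := Nat.one_le_two_pow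
  have b3 : 16 * S ≤ K := by nlinarith
  refine ⟨K', by omega, a1, a2, ?_⟩
  have e1 : NL m m.k (K + 2) ≤ NL m m.k K' * (10 ^ 6) ^ (5 * S) := by
    refine hc K' (K + 2) (5 * S) (by omega) (by omega) ?_
    omega
  have hN' : (0 : ℝ) < (NL m m.k K' : ℝ) := by exact_mod_cast NL_pos m m.k K'
  have hN2 : (0 : ℝ) < (NL m m.k (K + 2) : ℝ) := by exact_mod_cast NL_pos m m.k (K + 2)
  have e2 : ((NL m m.k (K + 2) : ℕ) : ℝ) ≤ (NL m m.k K' : ℝ) * ((10 : ℝ) ^ 6) ^ (5 * S) := by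
    exact_mod_cast e1
  have e3 := Real.log_le_log hN2 e2
  rw [Real.log_mul hN'.ne' (by positivity), Real.log_pow] at e3
  have e4 : ((10 : ℝ) ^ 6) ^ K ≤ (NL m m.k K : ℝ) := by exact_mod_cast pow_le_NL m m.k K
  have e5 := Real.log_le_log (by positivity) e4
  rw [Real.log_pow] at e5
  set T := Real.log ((10 : ℝ) ^ 6) with hT
  have hT0 : 0 < T := Real.log_pos (by norm_num)
  have hq : (0 : ℝ) < (2 : ℝ) ^ (m.q 0 * m.k) := by positivity
  have hd1 : d = 1 / (3 * (2 : ℝ) ^ (m.q 0 * m.k)) := by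
    rw [hd, Real.rpow_neg (by norm_num), Real.rpow_natCast]
    field_simp
  have b4 : (S : ℝ) * (16 * (2 : ℝ) ^ (m.q 0 * m.k)) ≤ (K : ℝ) := by exact_mod_cast b2
  have e6 : (5 * S : ℝ) ≤ d * K := by
    rw [hd1, div_mul_eq_mul_div, one_mul, le_div_iff₀ (by positivity)]
    have hS0 : (0 : ℝ) ≤ S := Nat.cast_nonneg _
    nlinarith [mul_nonneg hS0 hq.le]
  have hd0 : 0 < d := by
    rw [hd1]
    positivity
  have e7 : ((5 * S : ℕ) : ℝ) * T ≤ d * (K * T) := by
    push_cast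
    calc (5 * S : ℝ) * T ≤ (d * K) * T := mul_le_mul_of_nonneg_right e6 hT0.le
      _ = d * (K * T) := by ring
  have e8 : d * (K * T) ≤ d * Real.log (NL m m.k K) := mul_le_mul_of_nonneg_left e5 hd0.le
  linarith

end Pool.Agent.Helper30.T5g
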