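import Pool.Agent.Helper30.T5g.Used
import Pool.Agent.Helper99.T5g.Perm

/-!
# T5g (MP_12a1af): the facts about the used states
-/

set_option autoImplicit false

namespace Pool.Agent.Helper30.T5g

open Pool.Agent.Helper37.T5g Pool.Agent.Helper84.T5g Pool.Agent.Helper99.T5g

theorem usedFacts {m : Sq} (hm : OkF m) (hk : 4 ≤ m.k) : UsedFacts m where
  apart := ⟨0, fun _ _ _ hll h' h => apart_of_used hm.toOk hll h' h⟩
  below := by
    intro K1
    obtain ⟨Ka, ha⟩ := exists_used_below hm.toOk (by omega)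
    obtain ⟨Kb, hb⟩ := exists_ratio_used hm
    refine ⟨Ka + Kb + 2 * K1, fun K hK => ?_⟩
    obtain ⟨K', a1, a2, a3⟩ := ha K (by omega)
    have b1 := hb K (by omega)
    refine ⟨K', ?_, a1, a2, a3⟩
    have h1 : 8 ≤ 2 ^ ((m.q 0 + 1) * m.k) := by
      calc 8 = 2 ^ 3 := rfl
        _ ≤ _ := Nat.pow_le_pow_right (by norm_num) (by
          have h2 : 1 * 4 ≤ (m.q 0 + 1) * m.k := Nat.mul_le_mul (by omega) hk
          omega)
    have h3 : SS m (bL m m.k K + 1) * 8 ≤ K := (Nat.mul_le_mul_left _ h1).trans b1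
    omega
  ratio := by
    obtain ⟨Kb, hb⟩ := exists_ratio_used hm
    refine ⟨Kb, fun l hl => (hb l hl).trans (by omega)⟩

end Pool.Agent.Helper30.T5g
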